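import Pool.Agent.Q155.AL.Mul

/-! The algorithm of two recursively enumerable sets of polynomials -/

set_option autoImplicit false
set_option maxHeartbeats 400000

open scoped Classical

namespace Q44.DA

open Polynomial Pool.Agent.Helper446 Pool.Agent.W960.GA Q155.AL

/-- a factorization into polynomials with the property `N` -/
def FM (N : List (List ℤ) → Prop) (L : List (List ℤ)) (c : List (List (List ℤ))) : Prop :=
  toP L = ∏ k ∈ Finset.range c.length, toP (c.getD k []) ∧ ∀ M ∈ c, N M

theorem fm_re {N : List (List ℤ) → Prop} (hN : REPred N) : REPred fun L => ∃ c, FM N L c := by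
  refine RE.ex (p := FM N) (RE.and ?_ ?_)
  · have gl : Computable fun t : (List (List (List ℤ))) × ℕ => t.1.getD t.2 [] :=
      (Primrec.list_getD (α := List (List ℤ)) []).to_comp
    have p : Computable fun t : ((List (List ℤ)) × (List (List (List ℤ)))) × ℕ => (t.1.2, t.2) :=
      Computable.pair (Computable.snd.comp Computable.fst) Computable.snd
    have q := gl.comp p
    have b1 : CB fun t : ((List (List ℤ)) × (List (List (List ℤ)))) × ℕ => toP (t.1.2.getD t.2 []) :=
      toP_cb q
    have hlen : Computable fun t : (List (List ℤ)) × (List (List (List ℤ))) => t.2.length :=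
      Computable.list_length.comp Computable.snd
    have b2 := CB.prod b1 hlen
    exact (CB.eq (toP_cb Computable.fst) b2).to_re
  · have h1 : REPred fun x : ((List (List ℤ)) × (List (List (List ℤ)))) × (List (List ℤ)) =>
        N x.2 := RE.comp hN Computable.snd
    exact RE.all_mem (p := fun (_ : (List (List ℤ)) × (List (List (List ℤ)))) M => N M)
      (l := fun x => x.2) h1 Computable.snd

theorem fm_sound {N : List (List ℤ) → Prop} (hN : ∀ L, N L → (Zer L).Finite) {L : List (List ℤ)}
    {c : List (List (List ℤ))} (h : FM N L c) : (Zer L).Finite := by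
  obtain ⟨h1, h2⟩ := h
  rw [prod_list] at h1
  have h3 : (⋃ M ∈ {M | M ∈ c}, Zer M).Finite :=
    (List.finite_toSet c).biUnion fun M hM => hN M (h2 M hM)
  refine h3.subset fun p hp => ?_
  rw [mem_Zer, h1, map_list_prod, List.prod_eq_zero_iff, List.map_map, List.mem_map] at hp
  obtain ⟨M, hM, hz⟩ := hp
  rw [Set.mem_iUnion₂]
  exact ⟨M, hM, (mem_Zer M p).2 hz⟩

/-- a factor with the property `P` -/
def GM (P : List (List ℤ) → Prop) (L : List (List ℤ)) (c : List (List ℤ) × List (List ℤ)) : Prop :=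
  toP L = toP c.1 * toP c.2 ∧ P c.1

theorem gm_re {P : List (List ℤ) → Prop} (hP : REPred P) : REPred fun L => ∃ c, GM P L c := by
  refine RE.ex (p := GM P) (RE.and ?_ ?_)
  · have p1 : Computable fun t : (List (List ℤ)) × (List (List ℤ) × List (List ℤ)) => t.2.1 :=
      Computable.fst.comp Computable.snd
    have p2 : Computable fun t : (List (List ℤ)) × (List (List ℤ) × List (List ℤ)) => t.2.2 :=
      Computable.snd.comp Computable.snd
    exact (CB.eq (toP_cb Computable.fst) ((toP_cb p1).mul (toP_cb p2))).to_re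
  · have p : Computable fun t : (List (List ℤ)) × (List (List ℤ) × List (List ℤ)) => t.2.1 :=
      Computable.fst.comp Computable.snd
    exact RE.comp hP p

theorem gm_sound {P : List (List ℤ) → Prop} (hP : ∀ L, P L → (Zer L).Infinite) {L : List (List ℤ)}
    {c : List (List ℤ) × List (List ℤ)} (h : GM P L c) : (Zer L).Infinite := by
  refine (hP _ h.2).mono fun p hp => ?_
  rw [mem_Zer] at hp ⊢
  rw [h.1, map_mul, hp, zero_mul]

/-- **The algorithm.** -/
theorem main_gen {N P : List (List ℤ) → Prop} (hN : REPred N) (hP : REPred P)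
    (sN : ∀ L, N L → (Zer L).Finite) (sP : ∀ L, P L → (Zer L).Infinite) :
    ∃ φ : List (List ℤ) →. Bool, Partrec φ ∧
    (∀ L, ∀ r ∈ φ L, (r = true ↔ (Zer L).Infinite)) ∧
    (∀ L, P L → true ∈ φ L) ∧ (∀ L, N L → false ∈ φ L) ∧
    ∀ L L' L'' : List (List ℤ), toP L = toP L' * toP L'' →
      (false ∈ φ L' → false ∈ φ L'' → false ∈ φ L) ∧ (true ∈ φ L' → true ∈ φ L) := by
  have hf : Partrec fun L : List (List ℤ) =>
      (Part.assert (∃ c, GM P L c) fun _ => Part.some ()).map (fun _ => true) :=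
    Partrec.map (gm_re hP) (Computable.const true).to₂
  have hg : Partrec fun L : List (List ℤ) =>
      (Part.assert (∃ c, FM N L c) fun _ => Part.some ()).map (fun _ => false) :=
    Partrec.map (fm_re hN) (Computable.const false).to₂
  have mf : ∀ L x, x ∈ (Part.assert (∃ c, GM P L c) fun _ => Part.some ()).map (fun _ => true) ↔
      x = true ∧ ∃ c, GM P L c := by
    intro L x
    rw [Part.mem_map_iff]
    constructor
    · rintro ⟨u, hu, rfl⟩
      exact ⟨rfl, (Part.mem_assert_iff.1 hu).1⟩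
    · rintro ⟨rfl, h⟩
      exact ⟨(), Part.mem_assert_iff.2 ⟨h, Part.mem_some _⟩, rfl⟩
  have mg : ∀ L x, x ∈ (Part.assert (∃ c, FM N L c) fun _ => Part.some ()).map (fun _ => false) ↔
      x = false ∧ ∃ c, FM N L c := by
    intro L x
    rw [Part.mem_map_iff]
    constructor
    · rintro ⟨u, hu, rfl⟩
      exact ⟨rfl, (Part.mem_assert_iff.1 hu).1⟩
    · rintro ⟨rfl, h⟩
      exact ⟨(), Part.mem_assert_iff.2 ⟨h, Part.mem_some _⟩, rfl⟩
  obtain ⟨φ, hφ, hm⟩ := Partrec.merge hf hg (fun L x hx y hy => by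
    obtain ⟨-, c, hc⟩ := (mf L x).1 hx
    obtain ⟨-, c', hc'⟩ := (mg L y).1 hy
    exact absurd (fm_sound sN hc') (gm_sound sP hc))
  have ht : ∀ L, true ∈ φ L ↔ ∃ c, GM P L c := by
    intro L
    rw [hm, mf, mg]
    simp
  have hff : ∀ L, false ∈ φ L ↔ ∃ c, FM N L c := by
    intro L
    rw [hm, mf, mg]
    simp
  refine ⟨φ, hφ, fun L r hr => ?_, fun L hL => ?_, fun L hL => ?_,
    fun L L' L'' hL => ⟨fun h1 h2 => ?_, fun h1 => ?_⟩⟩
  · cases r
    · obtain ⟨c, hc⟩ := (hff L).1 hr
      exact ⟨fun h => Bool.noConfusion h, fun h => absurd (fm_sound sN hc) h⟩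
    · obtain ⟨c, hc⟩ := (ht L).1 hr
      exact ⟨fun _ => gm_sound sP hc, fun _ => rfl⟩
  · refine (ht L).2 ⟨(L, [[1]]), ?_, hL⟩
    have e : toP [[1]] = 1 := by simp [toP]
    rw [e, mul_one]
  · refine (hff L).2 ⟨[L], ?_, fun M hM => ?_⟩
    · rw [prod_list]
      simp
    · rw [List.mem_singleton] at hM
      exact hM ▸ hL
  · obtain ⟨c, hc, hc'⟩ := (hff L').1 h1
    obtain ⟨d, hd, hd'⟩ := (hff L'').1 h2
    refine (hff L).2 ⟨c ++ d, ?_, fun M hM => ?_⟩
    · rw [prod_list] at hc hd ⊢
      rw [List.map_append, List.prod_append, ← hc, ← hd, hL]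
    · rcases List.mem_append.1 hM with h | h
      · exact hc' M h
      · exact hd' M h
  · obtain ⟨⟨M, M'⟩, hc, hc'⟩ := (ht L').1 h1
    simp only at hc hc'
    obtain ⟨M'', hM''⟩ := toP_surj (toP M' * toP L'')
    refine (ht L).2 ⟨(M, M''), ?_, hc'⟩
    rw [hL, hc]
    simp only
    rw [hM'', mul_assoc]

end Q44.DA
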