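import Pool.Agent.Y214.SX.RKSHA
import Pool.Agent.H437R2.Man.MWWeak

/-! Five points in different classes -/

set_option autoImplicit false
set_option maxHeartbeats 400000

open scoped Classical

namespace Q44.DA

open WeierstrassCurve
open Pool.Agent.H437R2.Man.MW (crv crv_eqn crv_nonsing Pt halve add_double pt_fg numr xRep_add neg_mk)
open Pool.Agent.TH841.SH (IsR)
open Pool.Agent.Y214.SX (card_quot card_two index_double)

variable {e1 e2 e3 : ℚ}

/-- the classes of the two abscissae are equal -/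
def Eqv (e1 e2 x x' : ℚ) : Prop := IsSquare ((x + e1) * (x' + e1)) ∧ IsSquare ((x + e2) * (x' + e2))

theorem sq_id {a b c xr xq yr yq x x' : ℚ} (hd : xr ≠ xq)
    (qr : yr ^ 2 = (xr + a) * (xr + b) * (xr + c)) (qq : yq ^ 2 = (xq + a) * (xq + b) * (xq + c))
    (hx : x = numr a b c xr xq (yr * yq) / (xr - xq) ^ 2)
    (hx' : x' = numr a b c xr xq (yr * -yq) / (xr - xq) ^ 2) (e : ℚ) (f g : ℚ)
    (he : (e, f, g) = (a, b, c) ∨ (e, f, g) = (b, a, c)) : IsSquare ((x + e) * (x' + e)) := by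
  have h0 : xr - xq ≠ 0 := sub_ne_zero.2 hd
  refine ⟨((xr + e) * (xq + e) - (e - f) * (e - g)) / (xr - xq), ?_⟩
  rw [hx, hx']
  unfold numr
  rw [div_add' _ _ _ (pow_ne_zero 2 h0), div_add' _ _ _ (pow_ne_zero 2 h0), div_mul_div_comm,
    div_mul_div_comm, div_eq_div_iff (mul_ne_zero (pow_ne_zero 2 h0) (pow_ne_zero 2 h0))
      (mul_ne_zero h0 h0)]
  rcases he with he | he
  · obtain ⟨rfl, h2⟩ := Prod.mk.inj he
    obtain ⟨rfl, rfl⟩ := Prod.mk.inj h2
    linear_combination (xr - xq) ^ 2 * (-4 * yq ^ 2 * qr -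
      4 * ((xr + e) * (xr + f) * (xr + g)) * qq)
  · obtain ⟨rfl, h2⟩ := Prod.mk.inj he
    obtain ⟨rfl, rfl⟩ := Prod.mk.inj h2
    linear_combination (xr - xq) ^ 2 * (-4 * yq ^ 2 * qr -
      4 * ((xr + f) * (xr + e) * (xr + g)) * qq)

/-- points which differ by a double have equal classes -/
theorem kum (h12 : e1 ≠ e2) (h13 : e1 ≠ e3) (h23 : e2 ≠ e3) {x y x' y' : ℚ}
    (h : (crv e1 e2 e3).toAffine.Nonsingular x y) (h' : (crv e1 e2 e3).toAffine.Nonsingular x' y')
    {Q : Pt e1 e2 e3}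
    (hQ : Affine.Point.some x y h = Affine.Point.some x' y' h' + (Q + Q)) : Eqv e1 e2 x x' := by
  obtain ⟨R, hR⟩ : ∃ R, R = Affine.Point.some x' y' h' + Q := ⟨_, rfl⟩
  have hP : R + Q = Affine.Point.some x y h := by rw [hR, hQ]; abel
  have hP' : R - Q = Affine.Point.some x' y' h' := by rw [hR]; abel
  clear hQ hR
  have hself : x = x' → Eqv e1 e2 x x' := fun hh => by
    subst hh
    exact ⟨⟨_, rfl⟩, ⟨_, rfl⟩⟩
  cases Q with
  | zero =>
    apply hself
    rw [← Affine.Point.zero_def, add_zero] at hP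
    rw [← Affine.Point.zero_def, sub_zero] at hP'
    rw [hP] at hP'
    exact (Affine.Point.some.inj hP').1
  | some xq yq hq =>
    have hnq : (crv e1 e2 e3).toAffine.Nonsingular xq (-yq) := by
      apply crv_nonsing h12 h13 h23
      have := crv_eqn.1 hq.1
      linear_combination this
    have hneg := neg_mk hq hnq
    cases R with
    | zero =>
      apply hself
      rw [← Affine.Point.zero_def, zero_add] at hP
      rw [← Affine.Point.zero_def, zero_sub, hneg] at hP'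
      have k1 := (Affine.Point.some.inj hP).1
      have k2 := (Affine.Point.some.inj hP').1
      rw [← k1, ← k2]
    | some xr yr hr =>
      have qr := crv_eqn.1 hr.1
      have qq := crv_eqn.1 hq.1
      by_cases hx : xr = xq
      · exfalso
        subst hx
        have hyy : yr = yq ∨ yr = -yq := by
          apply sq_eq_sq_iff_eq_or_eq_neg.mp
          rw [qr, qq]
        rcases hyy with hyy | hyy
        · subst hyy
          rw [sub_self] at hP'
          exact Affine.Point.some_ne_zero h' hP'.symm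
        · have : Affine.Point.some xr yr hr + Affine.Point.some xr yq hq = 0 := by
            apply Affine.Point.add_of_Y_eq rfl
            simp only [Affine.negY, crv]
            linear_combination hyy
          rw [this] at hP
          exact Affine.Point.some_ne_zero h hP.symm
      · have k1 := xRep_add hr hq hx
        have k2 := xRep_add hr hnq hx
        rw [hP, Affine.Point.xRep_some] at k1
        rw [← hneg, ← sub_eq_add_neg, hP', Affine.Point.xRep_some] at k2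
        have k3 : x = numr e1 e2 e3 xr xq (yr * yq) / (xr - xq) ^ 2 := congrFun k1 0
        have k4 : x' = numr e1 e2 e3 xr xq (yr * -yq) / (xr - xq) ^ 2 := congrFun k2 0
        exact ⟨sq_id hx qr qq k3 k4 e1 e2 e3 (Or.inl rfl), sq_id hx qr qq k3 k4 e2 e1 e3 (Or.inr rfl)⟩

/-- points with equal classes differ by a double -/
theorem kum' (h12 : e1 ≠ e2) (h13 : e1 ≠ e3) (h23 : e2 ≠ e3) {x y x' y' : ℚ}
    (h : (crv e1 e2 e3).toAffine.Nonsingular x y) (h' : (crv e1 e2 e3).toAffine.Nonsingular x' y')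
    (hy : y ≠ 0) (hy' : y' ≠ 0) (he : Eqv e1 e2 x x') :
    ∃ Q : Pt e1 e2 e3, Affine.Point.some x y h = Affine.Point.some x' y' h' + (Q + Q) := by
  have q1 := crv_eqn.1 h.1
  have q2 := crv_eqn.1 h'.1
  obtain ⟨⟨r1, hr1⟩, r2, hr2⟩ := he
  have n1 : (x + e1) * (x + e2) * (x + e3) ≠ 0 := by rw [← q1]; exact pow_ne_zero 2 hy
  have n2 : (x' + e1) * (x' + e2) * (x' + e3) ≠ 0 := by rw [← q2]; exact pow_ne_zero 2 hy'
  have m1 : r1 ≠ 0 := by
    rintro rfl
    rw [mul_zero] at hr1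
    rcases mul_eq_zero.1 hr1 with h | h
    · exact n1 (by rw [h]; ring)
    · exact n2 (by rw [h]; ring)
  have m2 : r2 ≠ 0 := by
    rintro rfl
    rw [mul_zero] at hr2
    rcases mul_eq_zero.1 hr2 with h | h
    · exact n1 (by rw [h]; ring)
    · exact n2 (by rw [h]; ring)
  have hr3 : (x + e3) * (x' + e3) = (y * y' / (r1 * r2)) ^ 2 := by
    rw [div_pow, eq_div_iff (pow_ne_zero 2 (mul_ne_zero m1 m2))]
    have : (y * y') ^ 2 = ((x + e1) * (x' + e1)) * ((x + e2) * (x' + e2)) * ((x + e3) * (x' + e3)) := by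
      linear_combination y' ^ 2 * q1 + (x + e1) * (x + e2) * (x + e3) * q2
    rw [this, hr1, hr2]
    ring
  obtain ⟨Q, hQ⟩ := add_double h12 h13 h23 h h' m1 m2
    (div_ne_zero (mul_ne_zero hy hy') (mul_ne_zero m1 m2)) (by rw [hr1]; ring) (by rw [hr2]; ring) hr3
  refine ⟨Q - Affine.Point.some x' y' h', ?_⟩
  have : Affine.Point.some x y h = (Q + Q) - Affine.Point.some x' y' h' := by
    rw [hQ]; abel
  rw [this]
  abel

theorem isR_crv (e1 e2 e3 : ℚ) : IsR (crv e1 e2 e3) (-e1) (-e2) (-e3) :=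
  ⟨rfl, by show e1 + e2 + e3 = _; ring, rfl, by show e1 * e2 + e1 * e3 + e2 * e3 = _; ring,
    by show e1 * e2 * e3 = _; ring⟩

/-- the classes modulo doubles -/
abbrev QQ (e1 e2 e3 : ℚ) : Type :=
  Pt e1 e2 e3 ⧸ (nsmulAddMonoidHom (α := Pt e1 e2 e3) 2).range

theorem mk_eq {g g' : Pt e1 e2 e3} : (QuotientAddGroup.mk g : QQ e1 e2 e3) = QuotientAddGroup.mk g' ↔
    ∃ Q : Pt e1 e2 e3, g' = g + (Q + Q) := by
  rw [QuotientAddGroup.eq]
  constructor
  · rintro ⟨Q, hQ⟩
    refine ⟨Q, ?_⟩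
    rw [nsmulAddMonoidHom_apply, two_nsmul] at hQ
    rw [hQ]
    abel
  · rintro ⟨Q, hQ⟩
    refine ⟨Q, ?_⟩
    rw [nsmulAddMonoidHom_apply, two_nsmul, hQ]
    abel

theorem fin_two (h12 : e1 ≠ e2) (h13 : e1 ≠ e3) (h23 : e2 ≠ e3) :
    Nat.card {g : Pt e1 e2 e3 // g + g = 0} = 4 :=
  card_two (isR_crv e1 e2 e3) (fun h => h12 (neg_injective h)) (fun h => h13 (neg_injective h))
    (fun h => h23 (neg_injective h))

/-- **Five points.** -/
theorem of_five (h12 : e1 ≠ e2) (h13 : e1 ≠ e3) (h23 : e2 ≠ e3) {x y : Fin 5 → ℚ}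
    (hxy : ∀ i, y i ≠ 0 ∧ y i ^ 2 = (x i + e1) * (x i + e2) * (x i + e3))
    (hne : ∀ i j, i ≠ j → ¬ Eqv e1 e2 (x i) (x j)) : Infinite (Pt e1 e2 e3) := by
  by_contra hfin
  rw [not_infinite_iff_finite] at hfin
  have h1 : Nat.card (QQ e1 e2 e3) = 4 := by
    rw [index_double, ← fin_two h12 h13 h23]
    refine Nat.card_congr (Equiv.subtypeEquivRight fun g => ?_)
    rw [AddMonoidHom.mem_ker, nsmulAddMonoidHom_apply, two_nsmul]
  have hf : Finite (QQ e1 e2 e3) := Nat.finite_of_card_ne_zero (by rw [h1]; norm_num)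
  have : Fintype (QQ e1 e2 e3) := Fintype.ofFinite _
  rw [Nat.card_eq_fintype_card] at h1
  have hn : ∀ i, (crv e1 e2 e3).toAffine.Nonsingular (x i) (y i) := fun i =>
    crv_nonsing h12 h13 h23 (hxy i).2
  obtain ⟨i, j, hij, he⟩ := Fintype.exists_ne_map_eq_of_card_lt
    (fun i : Fin 5 => (QuotientAddGroup.mk (Affine.Point.some (x i) (y i) (hn i)) : QQ e1 e2 e3))
    (by rw [h1, Fintype.card_fin]; norm_num)
  obtain ⟨Q, hQ⟩ := mk_eq.1 he.symm
  exact hne i j hij (kum h12 h13 h23 (hn i) (hn j) hQ)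

theorem exists_five (h12 : e1 ≠ e2) (h13 : e1 ≠ e3) (h23 : e2 ≠ e3) (hinf : Infinite (Pt e1 e2 e3)) :
    ∃ x y : Fin 5 → ℚ, (∀ i, y i ≠ 0 ∧ y i ^ 2 = (x i + e1) * (x i + e2) * (x i + e3)) ∧
      ∀ i j, i ≠ j → ¬ Eqv e1 e2 (x i) (x j) := by
  have hfg : AddGroup.FG (Pt e1 e2 e3) := pt_fg h12 h13 h23
  have h1 := card_quot (Pt e1 e2 e3) hfg
  rw [fin_two h12 h13 h23] at h1
  have hr : Module.finrank ℤ (Pt e1 e2 e3) ≠ 0 := by
    intro h0
    have : Module.Finite ℤ (Pt e1 e2 e3) := Module.Finite.iff_addGroup_fg.mpr hfg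
    have ht := Module.finrank_eq_zero_iff_isTorsion.1 h0
    have hf : Finite (Pt e1 e2 e3) := Module.finite_of_fg_torsion _ ht
    exact not_finite (Pt e1 e2 e3)
  have h2 : 8 ≤ Nat.card (QQ e1 e2 e3) := by
    rw [h1]
    have : 2 ^ 1 ≤ 2 ^ Module.finrank ℤ (Pt e1 e2 e3) :=
      Nat.pow_le_pow_right (by norm_num) (Nat.pos_of_ne_zero hr)
    omega
  have hf : Finite (QQ e1 e2 e3) := Nat.finite_of_card_ne_zero (by omega)
  have : Fintype (QQ e1 e2 e3) := Fintype.ofFinite _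
  rw [Nat.card_eq_fintype_card] at h2
  obtain ⟨ι⟩ : Nonempty (Fin 5 ↪ QQ e1 e2 e3) :=
    Function.Embedding.nonempty_of_card_le (by rw [Fintype.card_fin]; omega)
  have hft : Finite {g : Pt e1 e2 e3 // g + g = 0} :=
    Nat.finite_of_card_ne_zero (by rw [fin_two h12 h13 h23]; norm_num)
  have key : ∀ q : QQ e1 e2 e3, ∃ g : Pt e1 e2 e3, QuotientAddGroup.mk g = q ∧ g + g ≠ 0 := by
    intro q
    by_contra hc
    push Not at hc
    obtain ⟨g0, hg0⟩ := QuotientAddGroup.mk_surjective q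
    have h3 : ∀ Q : Pt e1 e2 e3, (Q + Q) + (Q + Q) = 0 := by
      intro Q
      have h4 := hc (g0 + (Q + Q)) (by rw [← hg0]; exact (mk_eq.2 ⟨Q, rfl⟩).symm)
      have h5 := hc g0 hg0
      have h6 : g0 + (Q + Q) + (g0 + (Q + Q)) = (g0 + g0) + ((Q + Q) + (Q + Q)) := by abel
      rw [h6, h5, zero_add] at h4
      exact h4
    have h7 : Finite (nsmulAddMonoidHom (α := Pt e1 e2 e3) 2).range := by
      refine Finite.of_injective (fun g : (nsmulAddMonoidHom (α := Pt e1 e2 e3) 2).range =>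
        (⟨g.1, by
          obtain ⟨Q, hQ⟩ := g.2
          rw [nsmulAddMonoidHom_apply, two_nsmul] at hQ
          rw [← hQ]
          exact h3 Q⟩ : {g : Pt e1 e2 e3 // g + g = 0})) fun a b hab => ?_
      exact Subtype.ext (congrArg (fun t => t.1) hab)
    have h8 : Finite (Pt e1 e2 e3) :=
      Finite.of_equiv _ (AddSubgroup.addGroupEquivQuotientProdAddSubgroup
        (s := (nsmulAddMonoidHom (α := Pt e1 e2 e3) 2).range)).symm
    exact not_finite (Pt e1 e2 e3)
  choose g hg hg2 using fun i : Fin 5 => key (ι i)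
  have haff : ∀ i, ∃ (x y : ℚ) (h : (crv e1 e2 e3).toAffine.Nonsingular x y),
      g i = Affine.Point.some x y h ∧ y ≠ 0 := by
    intro i
    have h3 := hg2 i
    cases hgi : g i with
    | zero =>
      exfalso
      apply h3
      rw [hgi, ← Affine.Point.zero_def, add_zero]
    | some x y h =>
      refine ⟨x, y, h, rfl, ?_⟩
      rintro rfl
      apply h3
      rw [hgi]
      apply Affine.Point.add_of_Y_eq rfl
      simp only [Affine.negY, crv]
      ring
  choose x y h hgx hy using haff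
  refine ⟨x, y, fun i => ⟨hy i, crv_eqn.1 (h i).1⟩, fun i j hij he => hij (ι.injective ?_)⟩
  obtain ⟨Q, hQ⟩ := kum' h12 h13 h23 (h i) (h j) (hy i) (hy j) he
  rw [← hg i, ← hg j, hgx i, hgx j]
  exact (mk_eq.2 ⟨Q, hQ⟩).symm

end Q44.DA
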