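import Pool.Agent.TH841.AL.Fin
import Pool.Agent.Q44.DA.Cur
import Pool.Agent.Q44.JQ.X.MomC

/-! The finite check for rank zero -/

set_option autoImplicit false
set_option maxHeartbeats 400000

open scoped Classical

namespace Q44.DA

open WeierstrassCurve
open Pool.Agent.H437R2.Man.MW (crv crv_eqn crv_nonsing Pt)
open Pool.Agent.TH841.AL (RealSol ModSol)
open Pool.Agent.TH841.FD (cov_map)
open Pool.Agent.W307.SE (Loc Sel LocR SelR)
open Pool.Agent.TH841.SH.D (Sha)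
open Q44.JQ.X (cA cB cv poly_eq disc_ne)

/-- squarefree representatives -/
theorem rat_sqf {x : ℚ} (hx : x ≠ 0) : ∃ (b : ℤ) (r : ℚ), Squarefree b ∧ r ≠ 0 ∧ x = b * r ^ 2 := by
  obtain ⟨n, hn⟩ : ∃ n : ℤ, n = x.num * x.den := ⟨_, rfl⟩
  have hn0 : n ≠ 0 := by
    rw [hn]
    exact mul_ne_zero (Rat.num_ne_zero.2 hx) (by exact_mod_cast x.den_ne_zero)
  obtain ⟨a, t, h1, h2⟩ := Nat.sq_mul_squarefree n.natAbs
  have ht : t ≠ 0 := by
    rintro rfl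
    apply hn0
    have : n.natAbs = 0 := by rw [← h1]; ring
    exact Int.natAbs_eq_zero.1 this
  obtain ⟨q, hq0, hxn⟩ : ∃ q : ℚ, q ≠ 0 ∧ x = (n : ℚ) / q ^ 2 := by
    have hden : (x.den : ℚ) ≠ 0 := by exact_mod_cast x.den_ne_zero
    refine ⟨x.den, hden, ?_⟩
    rw [hn, eq_div_iff (pow_ne_zero 2 hden)]
    push_cast
    have := Rat.mul_den_eq_num x
    linear_combination (x.den : ℚ) * this
  have htq : (t : ℚ) ≠ 0 := by exact_mod_cast ht
  rcases Int.natAbs_eq n with h3 | h3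
  · refine ⟨a, t / q, Int.squarefree_natCast.2 h2, div_ne_zero htq hq0, ?_⟩
    rw [hxn, h3, ← h1]
    push_cast
    field_simp
  · refine ⟨-(a : ℤ), t / q, ?_, div_ne_zero htq hq0, ?_⟩
    · rw [← Int.squarefree_natAbs, Int.natAbs_neg, Int.natAbs_natCast]
      exact h2
    · rw [hxn, h3, ← h1]
      push_cast
      field_simp

/-- four pairs -/
abbrev P4 : Type := (ℤ × ℤ) × ((ℤ × ℤ) × ((ℤ × ℤ) × (ℤ × ℤ)))

/-- the pair is one of the four pairs -/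
def In4 (c : P4) (b d : ℤ) : Prop :=
  (b, d) = c.1 ∨ (b, d) = c.2.1 ∨ (b, d) = c.2.2.1 ∨ (b, d) = c.2.2.2

/-- the obstruction for one pair -/
def Ob2 (A B : ℤ) (c : P4) (m : ℕ) (b d : ℤ) : Prop :=
  In4 c b d ∨ ¬ RealSol A B b d ∨ ¬ ModSol A B b d m

/-- the finite check -/
def Ck (A B : ℤ) (c : P4) (m : ℕ) : Prop := ∀ b d : ℤ, Squarefree b → Squarefree d →
  b ∣ 2 * A * B * (A - B) → d ∣ 2 * A * B * (A - B) → Ob2 A B c m b d

/-- a rational point -/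
theorem cov_of_pt {A B b d : ℤ} {x y r s : ℚ} (h : y ^ 2 = x * (x - A) * (x - B))
    (hr : r ≠ 0) (hs : s ≠ 0) (hb : (b : ℚ) ≠ 0) (hd : (d : ℚ) ≠ 0)
    (h1 : x = b * r ^ 2) (h2 : x - A = d * s ^ 2) : Pool.Agent.TH841.FD.Cov ℚ A B b d := by
  refine ⟨r, 1, s, y / (b * d * r * s), Or.inr one_ne_zero, ?_, ?_⟩
  · linear_combination h2 - h1
  · have h3 : (b : ℚ) * r ^ 2 - B * 1 ^ 2 = x - B := by linear_combination -h1
    rw [h3, div_pow]
    have h4 : y ^ 2 = (b * r ^ 2) * (d * s ^ 2) * (x - B) := by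
      rw [h, ← h1, ← h2]
    rw [h4]
    field_simp

/-- **Soundness.** -/
theorem ck_sound {a : Fin 3 → ℤ} (hi : Function.Injective a) {c : P4} {m : ℕ} (hm : 0 < m)
    (h : Ck (a 1 - a 0) (a 2 - a 0) c m) :
    Finite (Pt (-(a 0 : ℚ)) (-(a 1 : ℚ)) (-(a 2 : ℚ))) := by
  obtain ⟨A, hA⟩ : ∃ A, A = a 1 - a 0 := ⟨_, rfl⟩
  obtain ⟨B, hB⟩ : ∃ B, B = a 2 - a 0 := ⟨_, rfl⟩
  rw [← hA, ← hB] at h
  have d01 : a 0 ≠ a 1 := hi.ne (by decide)
  have d02 : a 0 ≠ a 2 := hi.ne (by decide)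
  have d12 : a 1 ≠ a 2 := hi.ne (by decide)
  have q01 : (-(a 0 : ℚ)) ≠ -(a 1 : ℚ) := fun h => d01 (by exact_mod_cast neg_injective h)
  have q02 : (-(a 0 : ℚ)) ≠ -(a 2 : ℚ) := fun h => d02 (by exact_mod_cast neg_injective h)
  have q12 : (-(a 1 : ℚ)) ≠ -(a 2 : ℚ) := fun h => d12 (by exact_mod_cast neg_injective h)
  have hA0 : A ≠ 0 := by rw [hA]; exact sub_ne_zero.2 (Ne.symm d01)
  have hB0 : B ≠ 0 := by rw [hB]; exact sub_ne_zero.2 (Ne.symm d02)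
  have hAB : A ≠ B := by
    rw [hA, hB]
    intro h
    exact d12 (sub_left_injective h)
  by_contra hinf
  rw [not_finite_iff_infinite] at hinf
  obtain ⟨x, y, hxy, hne⟩ := exists_five q01 q02 q12 hinf
  have hAq : (A : ℚ) = a 1 - a 0 := by rw [hA]; push_cast; ring
  have hBq : (B : ℚ) = a 2 - a 0 := by rw [hB]; push_cast; ring
  have key : ∀ i, ∃ (b d : ℤ) (r s : ℚ), x i + -(a 0 : ℚ) = b * r ^ 2 ∧
      x i + -(a 1 : ℚ) = d * s ^ 2 ∧ In4 c b d := by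
    intro i
    obtain ⟨hy, he⟩ := hxy i
    have hp : (x i + -(a 0 : ℚ)) * (x i + -(a 1 : ℚ)) * (x i + -(a 2 : ℚ)) ≠ 0 := by
      rw [← he]
      exact pow_ne_zero 2 hy
    have n0 : x i + -(a 0 : ℚ) ≠ 0 := fun h => hp (by rw [h]; ring)
    have n1 : x i + -(a 1 : ℚ) ≠ 0 := fun h => hp (by rw [h]; ring)
    obtain ⟨b, r, hb, hr, h1⟩ := rat_sqf n0
    obtain ⟨d, s, hd, hs, h2⟩ := rat_sqf n1
    refine ⟨b, d, r, s, h1, h2, ?_⟩
    have hbq : (b : ℚ) ≠ 0 := by exact_mod_cast hb.ne_zero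
    have hdq : (d : ℚ) ≠ 0 := by exact_mod_cast hd.ne_zero
    have hc : Pool.Agent.TH841.FD.Cov ℚ A B b d := by
      refine cov_of_pt (x := x i + -(a 0 : ℚ)) (y := y i) ?_ hr hs hbq hdq h1 ?_
      · rw [he, hAq, hBq]
        ring
      · rw [← h2, hAq]
        ring
    have hdv : b ∣ 2 * A * B * (A - B) ∧ d ∣ 2 * A * B * (A - B) := by
      have h3 : ∀ p : ℕ, p.Prime → ¬ (p : ℤ) ∣ 2 * A * B * (A - B) → ¬ (p : ℤ) ∣ b ∧ ¬ (p : ℤ) ∣ d := by
        intro p hp hcon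
        have : Fact p.Prime := ⟨hp⟩
        have h4 := (Pool.Agent.TH841.FD.COVLf.covl A B b d hA0 hB0 hAB hb.ne_zero hd.ne_zero).2 p
          (cov_map (Rat.castHom ℚ_[p]) hc)
        exact (Pool.Agent.W405.SE.goodp_of Pool.Agent.W407.SE.ratp) p A B b d hcon hb hd h4
      refine ⟨Pool.Agent.TH841.AL.sqf_dvd hb fun p hp hpd => ?_,
        Pool.Agent.TH841.AL.sqf_dvd hd fun p hp hpd => ?_⟩
      · by_contra hcon
        exact (h3 p hp hcon).1 hpd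
      · by_contra hcon
        exact (h3 p hp hcon).2 hpd
    rcases h b d hb hd hdv.1 hdv.2 with h1 | h1 | h1
    · exact h1
    · exact absurd ((Pool.Agent.TH841.AL.RLf.rl A B b d hb.ne_zero hd.ne_zero).1
        (cov_map (Rat.castHom ℝ) hc)) h1
    · exact absurd (Pool.Agent.TH841.AL.SCf.sc A B b d m hm hb.ne_zero hd.ne_zero hc) h1
  choose b d r s k1 k2 k3 using key
  obtain ⟨i, -, j, -, hij, hbd⟩ := Finset.exists_ne_map_eq_of_card_lt_of_maps_to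
    (s := (Finset.univ : Finset (Fin 5))) (t := ({c.1, c.2.1, c.2.2.1, c.2.2.2} : Finset (ℤ × ℤ)))
    (f := fun i => (b i, d i)) (by
      refine lt_of_le_of_lt Finset.card_le_four ?_
      rw [Finset.card_univ, Fintype.card_fin]
      norm_num) (fun i _ => by
      have := k3 i
      unfold In4 at this
      simp only [Finset.coe_insert, Finset.coe_singleton, Set.mem_insert_iff,
        Set.mem_singleton_iff]
      exact this)
  obtain ⟨e1, e2⟩ := Prod.mk.inj hbd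
  refine hne i j hij ⟨⟨b i * r i * r j, ?_⟩, ⟨d i * s i * s j, ?_⟩⟩
  · rw [k1 i, k1 j, ← e1]
    ring
  · rw [k2 i, k2 j, ← e2]
    ring

theorem ex_four {S : Set (ℤ × ℤ)} (hS : S.Finite) (h : S.ncard ≤ 4) :
    ∃ c : P4, ∀ b d, (b, d) ∈ S → In4 c b d := by
  obtain ⟨l, hl⟩ : ∃ l, l = hS.toFinset.toList := ⟨_, rfl⟩
  have hlen : l.length ≤ 4 := by
    rw [hl, Finset.length_toList, ← Set.ncard_eq_toFinset_card S hS]
    exact h
  have hmem : ∀ x, x ∈ S → x ∈ l := by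
    intro x hx
    rw [hl, Finset.mem_toList, Set.Finite.mem_toFinset]
    exact hx
  refine ⟨(l.getD 0 (0, 0), l.getD 1 (0, 0), l.getD 2 (0, 0), l.getD 3 (0, 0)), fun b d hbd => ?_⟩
  obtain ⟨i, hi, he⟩ := List.mem_iff_getElem.1 (hmem _ hbd)
  have he' : l.getD i (0, 0) = (b, d) := by rw [List.getD_eq_getElem _ _ hi, he]
  have hi4 : i < 4 := by omega
  unfold In4
  interval_cases i
  · exact Or.inl he'.symm
  · exact Or.inr (Or.inl he'.symm)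
  · exact Or.inr (Or.inr (Or.inl he'.symm))
  · exact Or.inr (Or.inr (Or.inr he'.symm))

/-- **Completeness.** -/
theorem ck_complete {A B : ℤ} (hA : A ≠ 0) (hB : B ≠ 0) (hAB : A ≠ B) (hS : (Sel A B).Finite)
    (h : (Sel A B).ncard ≤ 4) : ∃ (c : P4) (m : ℕ), 0 < m ∧ Ck A B c m := by
  obtain ⟨c, hc⟩ := ex_four hS h
  have hn : 2 * A * B * (A - B) ≠ 0 :=
    mul_ne_zero (mul_ne_zero (mul_ne_zero two_ne_zero hA) hB) (sub_ne_zero.2 hAB)
  have key : ∀ t : ℤ × ℤ, ∃ m : ℕ, 0 < m ∧ (Squarefree t.1 → Squarefree t.2 →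
      In4 c t.1 t.2 ∨ ¬ RealSol A B t.1 t.2 ∨ ¬ ModSol A B t.1 t.2 m) := by
    rintro ⟨b, d⟩
    simp only
    by_cases hb : Squarefree b
    swap
    · exact ⟨1, one_pos, fun h' => absurd h' hb⟩
    by_cases hd : Squarefree d
    swap
    · exact ⟨1, one_pos, fun _ h' => absurd h' hd⟩
    by_cases hin : In4 c b d
    · exact ⟨1, one_pos, fun _ _ => Or.inl hin⟩
    have hcov := Pool.Agent.TH841.FD.COVLf.covl A B b d hA hB hAB hb.ne_zero hd.ne_zero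
    have h1 : ¬ (Pool.Agent.TH841.FD.Cov ℝ A B b d ∧
        ∀ (p : ℕ) [Fact p.Prime], Pool.Agent.TH841.FD.Cov ℚ_[p] A B b d) := by
      rintro ⟨h2, h3⟩
      exact hin (hc b d ⟨hb, hd, hcov.1 h2, fun p _ => hcov.2 p (h3 p)⟩)
    by_cases h2 : Pool.Agent.TH841.FD.Cov ℝ A B b d
    · have h3 : ¬ ∀ (p : ℕ) [Fact p.Prime], Pool.Agent.TH841.FD.Cov ℚ_[p] A B b d :=
        fun h' => h1 ⟨h2, h'⟩
      push Not at h3
      obtain ⟨p, hp, h4⟩ := h3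
      obtain ⟨k, hk⟩ := Pool.Agent.TH841.AL.CPf.cp p A B b d hb.ne_zero hd.ne_zero h4
      exact ⟨p ^ k, pow_pos hp.out.pos k, fun _ _ => Or.inr (Or.inr hk)⟩
    · refine ⟨1, one_pos, fun _ _ => Or.inr (Or.inl fun h' => h2 ?_)⟩
      exact (Pool.Agent.TH841.AL.RLf.rl A B b d hb.ne_zero hd.ne_zero).2 h'
  choose m hm1 hm2 using key
  obtain ⟨I, hI⟩ : ∃ I : Finset ℤ, I = Finset.Icc (-(|2 * A * B * (A - B)|))
    (|2 * A * B * (A - B)|) := ⟨_, rfl⟩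
  have hmem : ∀ d : ℤ, d ∣ 2 * A * B * (A - B) → d ∈ I := by
    intro d hdd
    have h1 : |d| ≤ |2 * A * B * (A - B)| := Int.le_of_dvd (abs_pos.2 hn) ((abs_dvd_abs _ _).2 hdd)
    rw [hI]
    exact Finset.mem_Icc.2 (abs_le.1 h1)
  refine ⟨c, ∏ t ∈ I ×ˢ I, m t, Finset.prod_pos fun t _ => hm1 t, fun b d hb hd hbn hdn => ?_⟩
  have ht : (b, d) ∈ I ×ˢ I := Finset.mem_product.2 ⟨hmem b hbn, hmem d hdn⟩
  rcases hm2 (b, d) hb hd with h1 | h1 | h1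
  · exact Or.inl h1
  · exact Or.inr (Or.inl h1)
  · exact Or.inr (Or.inr fun h2 => h1 (Pool.Agent.TH841.AL.SCf.mn A B b d (m (b, d)) _
      (Finset.dvd_prod_of_mem m ht) (Finset.prod_pos fun t _ => hm1 t) h2))

end Q44.DA
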