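import Pool.Agent.Q155.AL.Dec

/-! Plane curves with a map to a curve with finitely many rational points -/

set_option autoImplicit false
set_option maxHeartbeats 400000

open scoped Classical

namespace Q44.DA

open Polynomial Q155.AL

/-- the derivative with respect to the outer variable `x` -/
noncomputable def dx (F : PP) : PP := derivative F

/-- the derivative with respect to the inner variable `y` -/
noncomputable def dy (F : PP) : PP := Bivariate.swap (derivative (Bivariate.swap F))

theorem dx_mul (F G : PP) : dx (F * G) = dx F * G + F * dx G := derivative_mul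

theorem dx_add (F G : PP) : dx (F + G) = dx F + dx G := derivative_add

theorem dx_sub (F G : PP) : dx (F - G) = dx F - dx G := derivative_sub

theorem dy_mul (F G : PP) : dy (F * G) = dy F * G + F * dy G := by
  unfold dy
  rw [map_mul, derivative_mul, map_add, map_mul, map_mul, Bivariate.swap_swap_apply,
    Bivariate.swap_swap_apply]

theorem dy_add (F G : PP) : dy (F + G) = dy F + dy G := by
  unfold dy
  rw [map_add, derivative_add, map_add]

theorem dy_sub (F G : PP) : dy (F - G) = dy F - dy G := by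
  unfold dy
  rw [map_sub, derivative_sub, map_sub]

theorem dx_C (n : ℤ) : dx (C (C n)) = 0 := derivative_C

theorem dy_C (n : ℤ) : dy (C (C n)) = 0 := by
  unfold dy
  rw [Bivariate.swap_C_C, derivative_C, map_zero]

/-- the numerator of the Jacobian determinant of `F` and `P / R` -/
noncomputable def jac (F P R : PP) : PP :=
  dx F * (dy P * R - P * dy R) - dy F * (dx P * R - P * dx R)

theorem dvd_jac {F P R g f h : PP} {t u : ℤ} (hF : F = g * f)
    (hP : C (C t) * P - C (C u) * R = g * h) : g ∣ C (C t) * jac F P R := by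
  have x1 := congrArg dx hF
  have y1 := congrArg dy hF
  have x2 := congrArg dx hP
  have y2 := congrArg dy hP
  rw [dx_mul] at x1
  rw [dy_mul] at y1
  rw [dx_sub, dx_mul, dx_mul, dx_mul, dx_C, dx_C, zero_mul, zero_mul, zero_add, zero_add] at x2
  rw [dy_sub, dy_mul, dy_mul, dy_mul, dy_C, dy_C, zero_mul, zero_mul, zero_add, zero_add] at y2
  refine ⟨dx g * f * (dy h * R - h * dy R) + dx f * ((dy g * h + g * dy h) * R - g * h * dy R) -
    dy g * f * (dx h * R - h * dx R) - dy f * ((dx g * h + g * dx h) * R - g * h * dx R), ?_⟩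
  unfold jac
  rw [x1, y1]
  linear_combination (dx g * f + g * dx f) * (R * y2 - dy R * hP) -
    (dy g * f + g * dy f) * (R * x2 - dx R * hP)

theorem isConst_of_unit {D : PP} (h : IsUnit D) : ∃ n : ℤ, D = C (C n) := by
  obtain ⟨r, hr, rfl⟩ := Polynomial.isUnit_iff.1 h
  obtain ⟨s, hs, rfl⟩ := Polynomial.isUnit_iff.1 hr
  exact ⟨s, rfl⟩

/-- common zeros -/
theorem fin_common {A B : PP} (h : ∀ D : PP, D ∣ A → D ∣ B → ∃ n : ℤ, D = C (C n)) :
    {p : ℚ × ℚ | evR p.1 p.2 A = 0 ∧ evR p.1 p.2 B = 0}.Finite := by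
  obtain ⟨⟨U, V, w, hw, h1⟩, U', V', v, hv, h2⟩ := bez2 h
  refine ((fin_roots hv).prod (fin_roots hw)).subset fun p hp => ?_
  obtain ⟨hA, hB⟩ := hp
  have k1 := congrArg (evR p.1 p.2) h1
  have k2 := congrArg (evR p.1 p.2) h2
  rw [map_add, map_mul, map_mul, hA, hB, mul_zero, mul_zero, add_zero, evR_C] at k1
  rw [map_add, map_mul, map_mul, hA, hB, mul_zero, mul_zero, add_zero, evR_map] at k2
  exact ⟨k2.symm, k1.symm⟩

/-- the zeros in one fibre of the map which are not critical -/
theorem fin_fib {F P R : PP} (hF : F ≠ 0) {t u : ℤ} (_ht : t ≠ 0) :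
    {p : ℚ × ℚ | evR p.1 p.2 F = 0 ∧ (t : ℚ) * evR p.1 p.2 P = u * evR p.1 p.2 R ∧
      evR p.1 p.2 (jac F P R) ≠ 0}.Finite := by
  obtain ⟨a, b, g, hab, ha, hb⟩ := UniqueFactorizationMonoid.exists_reduced_factors F hF
    (C (C t) * P - C (C u) * R)
  have hd := dvd_jac ha.symm hb.symm
  refine (fin_common (A := a) (B := b) fun D h1 h2 => isConst_of_unit (hab h1 h2)).subset
    fun p hp => ?_
  obtain ⟨h1, h2, h3⟩ := hp
  have hg : evR p.1 p.2 g ≠ 0 := by
    intro h0
    obtain ⟨q, hq⟩ := hd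
    have h4 := congrArg (evR p.1 p.2) hq
    rw [map_mul, map_mul, h0, zero_mul, evR_CC] at h4
    exact mul_ne_zero (by exact_mod_cast _ht) h3 h4
  constructor
  · rw [← ha, map_mul] at h1
    exact (mul_eq_zero.1 h1).resolve_left hg
  · have h4 := congrArg (evR p.1 p.2) hb
    rw [map_mul, map_sub, map_mul, map_mul, evR_CC, evR_CC, h2, sub_self] at h4
    exact (mul_eq_zero.1 h4).resolve_left hg

/-- **Finiteness.** -/
theorem fin_all {F P R : PP} {X : Set ℚ} (hX : X.Finite)
    (hm : ∀ p : ℚ × ℚ, evR p.1 p.2 F = 0 → evR p.1 p.2 R ≠ 0 →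
      evR p.1 p.2 P / evR p.1 p.2 R ∈ X)
    {U V U' V' : PP} {w v : ℤ[X]} (hw : w ≠ 0) (hv : v ≠ 0)
    (h1 : U * F + V * (R * jac F P R) = C w) (h2 : U' * F + V' * (R * jac F P R) = v.map C) :
    {p : ℚ × ℚ | evR p.1 p.2 F = 0}.Finite := by
  have hF : F ≠ 0 := by
    rintro rfl
    have e : jac 0 P R = 0 := by
      unfold jac
      have e1 : dx 0 = 0 := derivative_zero
      have e2 : dy 0 = 0 := by
        unfold dy
        rw [map_zero, derivative_zero, map_zero]
      rw [e1, e2]
      ring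
    rw [e, mul_zero, mul_zero, mul_zero, add_zero] at h1
    exact hw (C_injective (by rw [← h1, C_0]))
  have h3 : (⋃ l ∈ X, {p : ℚ × ℚ | evR p.1 p.2 F = 0 ∧
      (l.den : ℤ) * evR p.1 p.2 P = (l.num : ℤ) * evR p.1 p.2 R ∧
      evR p.1 p.2 (jac F P R) ≠ 0}).Finite :=
    hX.biUnion fun l _ => by
      have := fin_fib (F := F) (P := P) (R := R) hF (t := (l.den : ℤ)) (u := l.num)
        (by exact_mod_cast l.den_ne_zero)
      exact this
  refine (h3.union ((fin_roots hv).prod (fin_roots hw))).subset fun p hp => ?_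
  rw [Set.mem_ofPred_eq] at hp
  by_cases hc : evR p.1 p.2 (R * jac F P R) = 0
  · right
    have k1 := congrArg (evR p.1 p.2) h1
    have k2 := congrArg (evR p.1 p.2) h2
    rw [map_add, map_mul, map_mul _ V', hp, hc, mul_zero, mul_zero, add_zero, evR_map] at k2
    rw [map_add, map_mul, map_mul _ V, hp, hc, mul_zero, mul_zero, add_zero, evR_C] at k1
    exact ⟨k2.symm, k1.symm⟩
  · left
    rw [map_mul] at hc
    have hR := left_ne_zero_of_mul hc
    have hJ := right_ne_zero_of_mul hc
    rw [Set.mem_iUnion₂]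
    refine ⟨_, hm p hp hR, hp, ?_, hJ⟩
    obtain ⟨l, hl⟩ : ∃ l, l = evR p.1 p.2 P / evR p.1 p.2 R := ⟨_, rfl⟩
    rw [← hl]
    have h4 : evR p.1 p.2 P = l * evR p.1 p.2 R := by
      rw [hl, div_mul_cancel₀ _ hR]
    rw [h4, ← mul_assoc]
    congr 1
    push_cast
    rw [mul_comm]
    exact Rat.mul_den_eq_num l

end Q44.DA
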