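import Pool.Agent.Q44.LD.Fld
import Pool.Agent.Q44.LD.Facts

/-! Sums of the laws over patterns -/

set_option autoImplicit false

open scoped Classical Topology

namespace Q44.DA

open Finset Filter
open Pool.Agent.Q269.MF (bet)
open Q44.JQ Q44.JQ.M Q44.JQ.X Q44.LD

theorem lawc_zero (c : ZMod 2) : lawc c 0 = if c = 0 then bet else 0 := by
  rw [lawc_ce, ce_vals.1, mul_one]
  by_cases h : c = 0
  · rw [h]
    rfl
  · rw [if_neg h, if_neg fun h' => h h'.symm]

theorem bet_lt_one : bet < 1 := by
  have := bet_lt
  linarith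

/-- only the value `0` -/
theorem hs_zero {c : ZMod 2} (hc : c = 0) :
    HasSum (fun e : ℕ => if e = 0 then lawc c e else 0) bet := by
  have h1 : bet = (fun e : ℕ => if e = 0 then lawc c e else 0) 0 := by
    simp only [if_pos]
    rw [lawc_zero, if_pos hc]
  rw [h1]
  exact hasSum_single 0 fun e he => if_neg he

/-- all the values except `0` -/
theorem hs_pos (c : ZMod 2) :
    HasSum (fun e : ℕ => if e ≠ 0 then lawc c e else 0) (1 - if c = 0 then bet else 0) := by
  have h1 : HasSum (fun e : ℕ => if e = 0 then lawc c e else 0) (if c = 0 then bet else 0) := by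
    have h2 : (if c = 0 then bet else 0) = (fun e : ℕ => if e = 0 then lawc c e else 0) 0 := by
      simp only [if_pos]
      rw [lawc_zero]
    rw [h2]
    exact hasSum_single 0 fun e he => if_neg he
  refine ((hasSum_lawc c).sub h1).congr_fun ?_
  intro e
  by_cases h : e = 0
  · rw [if_pos h, if_neg (not_not.2 h), sub_self]
  · rw [if_neg h, if_pos h, sub_zero]

section

variable {κ : Type} [Fintype κ]

/-- the general product -/
theorem hs_gen (c : κ → ZMod 2) (Q : κ → ℕ → Prop) {s : κ → ℝ}
    (hs : ∀ k, HasSum (fun e : ℕ => if Q k e then lawc (c k) e else 0) (s k)) (hp : ∀ k, 0 < s k)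
    {G : (κ → ℕ) → Prop} (hG : ∀ e, G e ↔ ∀ k, Q k (e k)) :
    HasSum (fun e : κ → ℕ => (if G e then (1 : ℝ) else 0) * ∏ k, lawc (c k) (e k))
      (∏ k, s k) := by
  have h1 := hasSum_prodg (κ := κ) (f := fun k e => if Q k e then lawc (c k) e else 0)
    (fun k e => by
      show 0 ≤ if Q k e then lawc (c k) e else 0
      split_ifs
      · exact lawc_nonneg _ _
      · exact le_rfl) hs hp
  refine h1.congr_fun ?_
  intro e
  by_cases h : ∀ k, Q k (e k)
  · rw [if_pos ((hG e).2 h), one_mul]
    exact prod_congr rfl fun k _ => by rw [if_pos (h k)]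
  · rw [if_neg fun h' => h ((hG e).1 h'), zero_mul]
    push Not at h
    obtain ⟨k, hk⟩ := h
    exact (prod_eq_zero (mem_univ k) (by rw [if_neg hk])).symm

/-- exactly the indices in `B` have the value `0` -/
theorem hs_pat (c : κ → ZMod 2) {B : Finset κ} (hB : ∀ k ∈ B, c k = 0)
    {G : (κ → ℕ) → Prop} (hG : ∀ e, G e ↔ ∀ k, (e k = 0 ↔ k ∈ B)) :
    HasSum (fun e : κ → ℕ => (if G e then (1 : ℝ) else 0) *
      ∏ k, lawc (c k) (e k)) (bet ^ B.card * (1 - bet) ^ (univ.filter fun k => c k = 0 ∧ k ∉ B).card) := by
  have h1 := hs_gen c (fun k e => (e = 0 ↔ k ∈ B))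
    (s := fun k => if k ∈ B then bet else if c k = 0 then 1 - bet else 1) (fun k => ?_) (fun k => ?_) hG
  · have h2 : ∀ k, (if k ∈ B then bet else if c k = 0 then 1 - bet else 1) =
        (if k ∈ B then bet else 1) * (if c k = 0 ∧ k ∉ B then 1 - bet else 1) := by
      intro k
      by_cases hk : k ∈ B
      · rw [if_pos hk, if_pos hk, if_neg (fun h => h.2 hk), mul_one]
      · rw [if_neg hk, if_neg hk, one_mul]
        by_cases hc : c k = 0
        · rw [if_pos hc, if_pos ⟨hc, hk⟩]
        · rw [if_neg hc, if_neg fun h => hc h.1]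
    have h3 : (∏ k, if k ∈ B then bet else if c k = 0 then 1 - bet else 1) =
        bet ^ B.card * (1 - bet) ^ (univ.filter fun k => c k = 0 ∧ k ∉ B).card := by
      rw [prod_congr rfl fun k _ => h2 k, prod_mul_distrib, prod_ite, prod_const, prod_const_one,
        mul_one, prod_ite, prod_const, prod_const_one, mul_one]
      congr 3
      ext k
      simp
    rw [h3] at h1
    exact h1
  · by_cases hk : k ∈ B
    · simp only [hk, if_true, iff_true]
      exact hs_zero (hB k hk)
    · simp only [hk, if_false, iff_false]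
      have h4 := hs_pos (c k)
      by_cases hc : c k = 0
      · rw [if_pos hc] at h4 ⊢
        exact h4
      · rw [if_neg hc, sub_zero] at h4
        rw [if_neg hc]
        exact h4
  · show 0 < if k ∈ B then bet else if c k = 0 then 1 - bet else 1
    split_ifs
    · exact bet_pos
    · have := bet_lt_one
      linarith
    · exact one_pos

/-- the indices in `B` have the value `0` -/
theorem hs_all (c : κ → ZMod 2) {B : Finset κ} (hB : ∀ k ∈ B, c k = 0)
    {G : (κ → ℕ) → Prop} (hG : ∀ e, G e ↔ ∀ k ∈ B, e k = 0) :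
    HasSum (fun e : κ → ℕ => (if G e then (1 : ℝ) else 0) *
      ∏ k, lawc (c k) (e k)) (bet ^ B.card) := by
  have h1 := hs_gen c (fun k e => (k ∈ B → e = 0))
    (s := fun k => if k ∈ B then bet else 1) (fun k => ?_) (fun k => ?_) hG
  · have h3 : (∏ k, if k ∈ B then bet else 1) = bet ^ B.card := by
      rw [prod_ite, prod_const, prod_const_one, mul_one]
      congr 2
      ext k
      simp
    rw [h3] at h1
    exact h1
  · by_cases hk : k ∈ B
    · simp only [hk, if_true, forall_const]
      exact hs_zero (hB k hk)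
    · simp only [hk, if_false, false_imp_iff, if_true]
      exact hasSum_lawc (c k)
  · show 0 < if k ∈ B then bet else 1
    split_ifs
    · exact bet_pos
    · exact one_pos

end

end Q44.DA
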