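import Pool.Agent.Q44.DA.Law
import Pool.Agent.Q44.JQ.X.Facts

/-! The number of the zeros of a vector of independent variables; the two laws for indicators -/

set_option autoImplicit false

open scoped Classical Topology

namespace Q44.DA

open Finset Filter
open Pool.Agent.Q269.MF (bet)
open Q44.JQ Q44.JQ.M Q44.JQ.X Q44.LD
open Pool.Agent.Y723.PT (tw)

/-- the exponential moment -/
theorem momP {κ : Type} (P : Finset κ) (p t : ℝ) :
    ∑ A ∈ P.powerset, Real.exp (t * A.card) * (p ^ A.card * (1 - p) ^ (P.card - A.card)) =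
      (p * Real.exp t + (1 - p)) ^ P.card := by
  have h := Finset.sum_pow_mul_eq_add_pow (p * Real.exp t) (1 - p) P
  rw [← h]
  refine sum_congr rfl fun A _ => ?_
  rw [mul_pow, ← Real.exp_nat_mul]
  have : (A.card : ℝ) * t = t * A.card := mul_comm _ _
  rw [this]
  ring

theorem tailP {κ : Type} (P : Finset κ) {p : ℝ} (hp0 : 0 ≤ p) (hp1 : p ≤ 1) {ε : ℝ} (hε : 0 < ε)
    (hε1 : ε ≤ 1) (s : ℝ) (hs : s = 1 ∨ s = -1) :
    ∑ A ∈ P.powerset, (if ε * P.card ≤ s * (A.card - p * P.card) then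
      p ^ A.card * (1 - p) ^ (P.card - A.card) else 0) ≤ Real.exp (-(ε ^ 2 * P.card / 4)) := by
  obtain ⟨n, hn⟩ : ∃ n, n = P.card := ⟨_, rfl⟩
  set t : ℝ := s * (ε / 2) with ht
  have hw : ∀ A : Finset κ, 0 ≤ p ^ A.card * (1 - p) ^ (P.card - A.card) := fun A =>
    mul_nonneg (pow_nonneg hp0 _) (pow_nonneg (by linarith) _)
  have hs2 : s * s = 1 := by rcases hs with rfl | rfl <;> norm_num
  have h1 : ∑ A ∈ P.powerset, (if ε * P.card ≤ s * (A.card - p * P.card) then
      p ^ A.card * (1 - p) ^ (P.card - A.card) else 0) ≤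
      ∑ A ∈ P.powerset, Real.exp (-(t * (p * P.card)) - ε / 2 * (ε * P.card)) *
        (Real.exp (t * A.card) * (p ^ A.card * (1 - p) ^ (P.card - A.card))) := by
    refine sum_le_sum fun A _ => ?_
    split_ifs with hA
    · rw [← mul_assoc, ← Real.exp_add]
      refine le_mul_of_one_le_left (hw A) (Real.one_le_exp ?_)
      have h2 : ε / 2 * (ε * P.card) ≤ ε / 2 * (s * (A.card - p * P.card)) :=
        mul_le_mul_of_nonneg_left hA (by positivity)
      rw [ht]
      linarith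
    · exact mul_nonneg (Real.exp_pos _).le (mul_nonneg (Real.exp_pos _).le (hw A))
  refine h1.trans ?_
  rw [← mul_sum, momP, ← hn]
  have ht1 : |t| ≤ 1 := by
    rw [ht]
    rcases hs with rfl | rfl <;> rw [abs_le] <;> constructor <;> linarith
  have h2 : Real.exp t ≤ 1 + t + t ^ 2 := by
    have h3 := (abs_le.1 (Real.abs_exp_sub_one_sub_id_le ht1)).2
    linarith
  have h3 : p * Real.exp t + (1 - p) ≤ Real.exp (p * (t + t ^ 2)) := by
    have h4 := Real.add_one_le_exp (p * (t + t ^ 2))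
    have h5 : p * Real.exp t ≤ p * (1 + t + t ^ 2) := mul_le_mul_of_nonneg_left h2 hp0
    linarith
  have h4 : (p * Real.exp t + (1 - p)) ^ n ≤ Real.exp (n * (p * (t + t ^ 2))) := by
    rw [Real.exp_nat_mul]
    refine pow_le_pow_left₀ ?_ h3 n
    have := mul_nonneg hp0 (Real.exp_pos t).le
    linarith
  calc Real.exp (-(t * (p * n)) - ε / 2 * (ε * n)) * (p * Real.exp t + (1 - p)) ^ n
      ≤ Real.exp (-(t * (p * n)) - ε / 2 * (ε * n)) * Real.exp (n * (p * (t + t ^ 2))) :=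
        mul_le_mul_of_nonneg_left h4 (Real.exp_pos _).le
    _ = Real.exp (-(t * (p * n)) - ε / 2 * (ε * n) + n * (p * (t + t ^ 2))) :=
        (Real.exp_add _ _).symm
    _ ≤ Real.exp (-(ε ^ 2 * n / 4)) := by
        refine Real.exp_le_exp.2 ?_
        have h5 : t ^ 2 = (ε / 2) ^ 2 := by
          rw [ht, mul_pow, pow_two s, hs2, one_mul]
        have h6 : p * ((n : ℝ) * (ε / 2) ^ 2) ≤ 1 * ((n : ℝ) * (ε / 2) ^ 2) :=
          mul_le_mul_of_nonneg_right hp1 (by positivity)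
        rw [h5]
        nlinarith

theorem tail2 {κ : Type} {P : Finset κ} (hP : 0 < P.card) {p : ℝ} (hp0 : 0 ≤ p) (hp1 : p ≤ 1)
    {ε : ℝ} (hε : 0 < ε) :
    ∑ A ∈ P.powerset, (if ε ≤ |(A.card : ℝ) / P.card - p| then
      p ^ A.card * (1 - p) ^ (P.card - A.card) else 0) ≤
      2 * Real.exp (-(ε ^ 2 * P.card / 4)) := by
  have hn' : (0 : ℝ) < P.card := by exact_mod_cast hP
  have hw : ∀ A : Finset κ, 0 ≤ p ^ A.card * (1 - p) ^ (P.card - A.card) := fun A =>
    mul_nonneg (pow_nonneg hp0 _) (pow_nonneg (by linarith) _)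
  by_cases hε1 : ε ≤ 1
  · have h1 := tailP P hp0 hp1 hε hε1 1 (Or.inl rfl)
    have h2 := tailP P hp0 hp1 hε hε1 (-1) (Or.inr rfl)
    refine le_trans ?_ (le_of_le_of_eq (add_le_add h1 h2) (two_mul _).symm)
    rw [← sum_add_distrib]
    refine sum_le_sum fun A _ => ?_
    have hA := hw A
    by_cases hJ : ε ≤ |(A.card : ℝ) / P.card - p|
    · rw [if_pos hJ]
      rcases le_abs.1 hJ with h3 | h3
      · have h4 : ε * P.card ≤ 1 * (A.card - p * P.card) := by
          have h5 := mul_le_mul_of_nonneg_right h3 hn'.le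
          rw [sub_mul, div_mul_cancel₀ _ hn'.ne'] at h5
          linarith
        rw [if_pos h4]
        split_ifs <;> linarith
      · have h4 : ε * P.card ≤ -1 * (A.card - p * P.card) := by
          have h5 := mul_le_mul_of_nonneg_right h3 hn'.le
          rw [neg_mul, sub_mul, div_mul_cancel₀ _ hn'.ne'] at h5
          linarith
        rw [if_pos h4]
        split_ifs <;> linarith
    · rw [if_neg hJ]
      split_ifs <;> linarith
  · have h3 : ∀ A ∈ P.powerset, ¬ ε ≤ |(A.card : ℝ) / P.card - p| := by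
      intro A hAP hA
      have h4 : (A.card : ℝ) / P.card ≤ 1 := by
        rw [div_le_one hn']
        exact_mod_cast card_le_card (mem_powerset.1 hAP)
      have h5 : 0 ≤ (A.card : ℝ) / P.card := by positivity
      have h8 : |(A.card : ℝ) / P.card - p| ≤ 1 := abs_le.2 ⟨by linarith, by linarith⟩
      exact hε1 (hA.trans h8)
    rw [sum_eq_zero fun A hA => if_neg (h3 A hA)]
    positivity

section

variable {κ : Type} [Fintype κ]

/-- exactly the indices in `B` have the value `0`, `P` is the set of the even indices -/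
theorem hs_pat2 {c : κ → ZMod 2} {P B : Finset κ} (hP : ∀ k, k ∈ P ↔ c k = 0) (hB : B ⊆ P)
    {G : (κ → ℕ) → Prop} (hG : ∀ e, G e ↔ ∀ k, (e k = 0 ↔ k ∈ B)) :
    HasSum (fun e : κ → ℕ => (if G e then (1 : ℝ) else 0) *
      ∏ k, lawc (c k) (e k)) (bet ^ B.card * (1 - bet) ^ (P.card - B.card)) := by
  have h1 := hs_pat c (B := B) (fun k hk => (hP k).1 (hB hk)) hG
  have h2 : (univ.filter fun k => c k = 0 ∧ k ∉ B) = P \ B := by
    ext k
    rw [Finset.mem_filter, Finset.mem_sdiff, hP k]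
    exact ⟨fun h => h.2, fun h => ⟨mem_univ _, h⟩⟩
  rw [h2, card_sdiff_of_subset hB] at h1
  exact h1

/-- an odd index does not have the value `0` -/
theorem hs_odd {c : κ → ZMod 2} {P B : Finset κ} (hP : ∀ k, k ∈ P ↔ c k = 0) (hB : ¬ B ⊆ P)
    {G : (κ → ℕ) → Prop} (hG : ∀ e, G e ↔ ∀ k, (e k = 0 ↔ k ∈ B)) :
    HasSum (fun e : κ → ℕ => (if G e then (1 : ℝ) else 0) * ∏ k, lawc (c k) (e k)) 0 := by
  obtain ⟨k, hk, hkP⟩ := not_subset.1 hB
  have h0 : (fun e : κ → ℕ => (if G e then (1 : ℝ) else 0) * ∏ k, lawc (c k) (e k)) =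
      fun _ => 0 := by
    funext e
    by_cases h : G e
    · have h1 : e k = 0 := ((hG e).1 h k).2 hk
      rw [prod_eq_zero (mem_univ k), mul_zero]
      rw [h1, lawc_zero, if_neg fun h2 => hkP ((hP k).2 h2)]
    · rw [if_neg h, zero_mul]
  rw [h0]
  exact hasSum_zero

/-- the number of the values `0` -/
theorem hs_cnt {c : κ → ZMod 2} {P : Finset κ} (hP : ∀ k, k ∈ P ↔ c k = 0) (J : ℕ → Prop)
    {G : (κ → ℕ) → Prop} (hG : ∀ e, G e ↔ J (univ.filter fun k => e k = 0).card) :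
    HasSum (fun e : κ → ℕ => (if G e then (1 : ℝ) else 0) * ∏ k, lawc (c k) (e k))
      (∑ A ∈ P.powerset, if J A.card then bet ^ A.card * (1 - bet) ^ (P.card - A.card) else 0) := by
  obtain ⟨G', hG'⟩ : ∃ G' : Finset κ → (κ → ℕ) → Prop, ∀ A e, G' A e ↔ ∀ k, (e k = 0 ↔ k ∈ A) :=
    ⟨_, fun _ _ => Iff.rfl⟩
  have h1 : ∀ A : Finset κ, HasSum (fun e : κ → ℕ => (if J A.card then (1 : ℝ) else 0) *
      ((if G' A e then (1 : ℝ) else 0) * ∏ k, lawc (c k) (e k)))
      ((if J A.card then (1 : ℝ) else 0) *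
        if A ⊆ P then bet ^ A.card * (1 - bet) ^ (P.card - A.card) else 0) := by
    intro A
    have h0 : HasSum (fun e : κ → ℕ => (if G' A e then (1 : ℝ) else 0) * ∏ k, lawc (c k) (e k))
        (if A ⊆ P then bet ^ A.card * (1 - bet) ^ (P.card - A.card) else 0) := by
      by_cases hA : A ⊆ P
      · rw [if_pos hA]
        exact hs_pat2 hP hA (hG' A)
      · rw [if_neg hA]
        exact hs_odd hP hA (hG' A)
    exact h0.mul_left _
  have h2 := hasSum_sum (s := (univ : Finset (Finset κ))) fun A _ => h1 A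
  have h3 : ∑ A : Finset κ, ((if J A.card then (1 : ℝ) else 0) *
        if A ⊆ P then bet ^ A.card * (1 - bet) ^ (P.card - A.card) else 0) =
      ∑ A ∈ P.powerset, if J A.card then bet ^ A.card * (1 - bet) ^ (P.card - A.card) else 0 := by
    have h4 : P.powerset = univ.filter fun A => A ⊆ P := by
      ext A
      rw [mem_powerset, mem_filter, and_iff_right (mem_univ A)]
    rw [h4, sum_filter]
    refine sum_congr rfl fun A _ => ?_
    by_cases hA : A ⊆ P
    · rw [if_pos hA, if_pos hA]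
      split_ifs <;> simp
    · rw [if_neg hA, if_neg hA, mul_zero]
  rw [h3] at h2
  refine h2.congr_fun ?_
  intro e
  obtain ⟨Z, hZ⟩ : ∃ Z, Z = univ.filter fun k => e k = 0 := ⟨_, rfl⟩
  have h5 : ∀ A : Finset κ, G' A e ↔ A = Z := by
    intro A
    rw [hG', hZ]
    constructor
    · intro h
      ext k
      rw [mem_filter, and_iff_right (mem_univ k)]
      exact (h k).symm
    · rintro rfl k
      rw [mem_filter, and_iff_right (mem_univ k)]
  rw [sum_eq_single Z]
  · rw [if_pos ((h5 Z).2 rfl), one_mul]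
    have h6 := hG e
    rw [← hZ] at h6
    by_cases h7 : J Z.card
    · rw [if_pos h7, if_pos (h6.2 h7)]
    · rw [if_neg h7, if_neg fun h => h7 (h6.1 h)]
  · intro A _ hA
    rw [if_neg fun h => hA ((h5 A).1 h), zero_mul, mul_zero]
  · intro h
    exact absurd (mem_univ Z) h

/-- **The natural order.** -/
theorem lawA (E : Ey κ) {D₀ : ℤ} (hD₀ : Squarefree D₀) {G : (κ → ℕ) → Prop} {v : ℝ}
    (hv : HasSum (fun e : κ → ℕ => (if G e then (1 : ℝ) else 0) *
      ∏ k, lawc ((sr (cv (tw D₀ (E.a k))) : ℕ) : ZMod 2) (e k)) v) :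
    Tendsto (fun X : ℕ => ({D : ℤ | (|D| ≤ X ∧ Squarefree D ∧ E.Cond D₀ D) ∧
      G fun k => sr (cv (tw D (E.a k)))}.ncard : ℝ) /
        ({D : ℤ | |D| ≤ X ∧ Squarefree D ∧ E.Cond D₀ D}.ncard : ℝ)) atTop (𝓝 v) := by
  obtain ⟨-, -, h7⟩ := (E.out factsY).2 D₀ hD₀ (fun D => Squarefree D ∧ E.Cond D₀ D) fun _ => Iff.rfl
  have h8 := h7 {e | G e}
  have h9 : (∑' e : κ → ℕ, if e ∈ {e | G e} then
      ∏ k, lawc ((sr (cv (tw D₀ (E.a k))) : ℕ) : ZMod 2) (e k) else 0) = v := by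
    rw [← hv.tsum_eq]
    refine tsum_congr fun e => ?_
    by_cases h : G e
    · rw [if_pos h, one_mul, if_pos (show e ∈ {e | G e} from h)]
    · rw [if_neg h, zero_mul, if_neg (show ¬ e ∈ {e | G e} from h)]
  rw [h9] at h8
  exact h8

end

/-- **The divisors of an integer.** -/
theorem lawB {n m : ℕ} {a : Fin m → Fin 3 → ℤ} {I : Fin m → Finset (Fin n)} {S : Finset ℕ}
    {ε : ℝ} {D : ℕ} (hD : 0 < D) (h : Gd a I S 1 ε D) {t₀ : Fin n → ℤ} (h₀ : ∀ i, Squarefree (t₀ i))
    (hne : (Tp S t₀ D).Nonempty) {G : (Fin m → ℕ) → Prop} {v : ℝ}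
    (hv : HasSum (fun e : Fin m → ℕ => (if G e then (1 : ℝ) else 0) *
      ∏ k, lawc ((wr (a k) (∏ i ∈ I k, t₀ i) : ℕ) : ZMod 2) (e k)) v) :
    |({t ∈ Tp S t₀ D | G fun k => wr (a k) (∏ i ∈ I k, t i)}.ncard : ℝ) / (Tp S t₀ D).ncard - v| ≤ ε := by
  have h1 := h t₀ h₀ hne (fun e => if G e then 1 else 0) fun e => by
    rw [one_pow]
    split_ifs
    · rw [abs_one]
    · rw [abs_zero]
      exact zero_le_one
  have h2 := hv.tsum_eq
  have h3 : (∑' e : Fin m → ℕ, (if G e then (1 : ℝ) else 0) *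
      ∏ k, lawc ((wv a I t₀ k : ℕ) : ZMod 2) (e k)) = v := h2
  rw [h3] at h1
  have hfin := tp_fin (T := S) hD.ne' t₀
  have h4 := mean_ind hfin fun t : Fin n → ℤ => G (wv a I t)
  have h5 : mean (Tp S t₀ D) (fun t => if G (wv a I t) then (1 : ℝ) else 0) =
      ({t ∈ Tp S t₀ D | G fun k => wr (a k) (∏ i ∈ I k, t i)}.ncard : ℝ) / (Tp S t₀ D).ncard := by
    rw [h4]
    rfl
  rw [h5] at h1
  exact h1

end Q44.DA
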