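import Pool.Agent.Q44.DA.Pos2
import Pool.Agent.Q44.DA.Alg

/-! The algorithm, examples of curves over and under an elliptic curve -/

set_option autoImplicit false
set_option maxHeartbeats 400000

open scoped Classical

namespace Q44.DA

open Polynomial WeierstrassCurve
open Q155.AL (PP cf2 toP evR hom Zer const_of_elim)
open Pool.Agent.H437R2.Man.MW (Pt)
open Q44.JQ.X (cv)

/-- **The algorithm.** -/
theorem main_DA : ∃ φ : List (List ℤ) →. Bool, Partrec φ ∧
    (∀ L, ∀ r ∈ φ L, (r = true ↔ (Zer L).Infinite)) ∧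
    (∀ a : Fin 3 → ℤ, Function.Injective a → a 0 + a 1 + a 2 = 0 → Sol (cv a) →
      ∀ L, Mq (toP L) a → false ∈ φ L) ∧
    (∀ a : Fin 3 → ℤ, Function.Injective a → a 0 + a 1 + a 2 = 0 →
      Infinite (cv a).toAffine.Point → ∀ L, Cw L (FW (a 0) (a 1) (a 2)) → true ∈ φ L) ∧
    ∀ L L' L'' : List (List ℤ), toP L = toP L' * toP L'' →
      (false ∈ φ L' → false ∈ φ L'' → false ∈ φ L) ∧ (true ∈ φ L' → true ∈ φ L) := by
  obtain ⟨φ, h1, h2, h3, h4, h5⟩ := main_gen ncq_re pcq_re
    (fun L ⟨c, hc⟩ => ncq_sound hc) (fun L ⟨c, hc⟩ => pcq_sound hc)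
  refine ⟨φ, h1, h2, fun a hi h0 hs L hL => h4 L (ncq_complete h0 hi hs hL),
    fun a hi h0 hinf L hL => h3 L (pcq_complete (hi.ne (by decide)) (hi.ne (by decide))
      (hi.ne (by decide)) ?_ hL), h5⟩
  rw [inf_iff (hi.ne (by decide)) (hi.ne (by decide)) (hi.ne (by decide))]
  rw [cv_crv h0] at hinf
  exact hinf

/-! ### Examples -/

theorem dx_X : dx X = 1 := derivative_X

theorem dx_CX : dx (C X) = 0 := derivative_C

theorem dy_X : dy X = 0 := by
  unfold dy
  rw [Bivariate.swap_Y, derivative_C, map_zero]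

theorem dy_CX : dy (C X) = 1 := by
  unfold dy
  rw [Bivariate.swap_X, derivative_X, map_one]

theorem dx_one : dx 1 = 0 := derivative_one

theorem dy_one : dy 1 = 0 := by
  unfold dy
  rw [map_one, derivative_one, map_zero]

theorem dx_zero : dx 0 = 0 := derivative_zero

theorem dy_zero : dy 0 = 0 := by
  unfold dy
  rw [map_zero, derivative_zero, map_zero]

theorem dy_FW (a0 a1 a2 : ℤ) : dy (FW a0 a1 a2) = 2 * C X := by
  unfold FW
  simp only [pow_two, dy_sub, dy_mul, dy_CX, dy_X, dy_C]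
  ring

/-- the curve lies over itself -/
theorem mq_self (a : Fin 3 → ℤ) : Mq (FW (a 0) (a 1) (a 2)) a := by
  refine ⟨X, C X, 1, ⟨1, by unfold FW; ring⟩, fun D hF hJ => ?_⟩
  have e : 1 * jac (FW (a 0) (a 1) (a 2)) X 1 = C (-(2 * X)) := by
    unfold jac
    rw [dy_FW, dx_X, dx_one, dy_X, dy_one]
    have e2 : (C (2 : ℤ[X]) : PP) = 2 := rfl
    rw [C_neg, C_mul, e2]
    ring
  rw [e] at hJ
  have h1 : D.natDegree = 0 := by
    have := natDegree_le_of_dvd hJ (C_ne_zero.2 (neg_ne_zero.2 (mul_ne_zero two_ne_zero X_ne_zero)))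
    rw [natDegree_C] at this
    omega
  obtain ⟨d, rfl⟩ : ∃ d, D = C d := ⟨_, eq_C_of_natDegree_eq_zero h1⟩
  rw [C_dvd_iff_dvd_coeff] at hF
  have h3 := hF 3
  have e3 : (FW (a 0) (a 1) (a 2)).coeff 3 = -1 := by
    have e4 : FW (a 0) (a 1) (a 2) = C (X ^ 2 + C (a 0 * a 1 * a 2)) +
        C (-C (a 0 * a 1 + a 0 * a 2 + a 1 * a 2)) * X + C (C (a 0 + a 1 + a 2)) * X ^ 2 +
        C (-1) * X ^ 3 := by
      unfold FW
      simp only [C_add, C_neg, C_mul, C_pow, map_one]
      ring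
    rw [e4]
    simp only [coeff_add, coeff_C_mul, coeff_C, coeff_X, coeff_X_pow]
    norm_num
  rw [e3, dvd_neg] at h3
  exact isConst_of_unit (isUnit_C.2 (isUnit_of_dvd_one h3))

/-- the coefficients of `y² - (b x⁴ - s x² + q)` -/
def quaL (s q b : ℤ) : List (List ℤ) := [[-q, 0, 1], [], [s], [], [-b]]

theorem toP_quaL (s q b : ℤ) : toP (quaL s q b) =
    C X ^ 2 - (C (C b) * X ^ 4 - C (C s) * X ^ 2 + C (C q)) := by
  unfold toP quaL
  simp only [List.length_cons, List.length_nil, Finset.sum_range_succ,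
    Finset.sum_range_zero, List.getD_cons_zero, List.getD_cons_succ]
  simp only [map_neg, map_zero, map_one]
  ring

/-- the quartics lie over the curve -/
theorem mq_qua {a : Fin 3 → ℤ} {b q : ℤ} (hb : b ≠ 0) (hq : q ≠ 0)
    (h : (a 1 - a 0) * (a 2 - a 0) = b * q) :
    Mq (toP (quaL (a 1 - a 0 + (a 2 - a 0)) q b)) a := by
  obtain ⟨s, hs⟩ : ∃ s, s = a 1 - a 0 + (a 2 - a 0) := ⟨_, rfl⟩
  rw [← hs, toP_quaL]
  obtain ⟨F, hF⟩ : ∃ F : PP, F = C X ^ 2 - (C (C b) * X ^ 4 - C (C s) * X ^ 2 + C (C q)) := ⟨_, rfl⟩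
  have hdy : dy F = 2 * C X := by
    rw [hF]
    simp only [pow_succ, pow_zero, one_mul, dy_sub, dy_add, dy_mul, dy_CX, dy_X, dy_C]
    ring
  rw [← hF]
  refine ⟨C (C b) * X ^ 2 + C (C (a 0)), C (C b) * X * C X, 1, ⟨C (C b) ^ 2 * X ^ 2, ?_⟩,
    fun D hD hJ => ?_⟩
  · have h1 : (C (C (a 1 - a 0)) : PP) * C (C (a 2 - a 0)) = C (C b) * C (C q) := by
      rw [← C_mul, ← C_mul, h, C_mul, C_mul]
    have h2 : (C (C s) : PP) = C (C (a 1 - a 0)) + C (C (a 2 - a 0)) := by
      rw [hs, C_add, C_add]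
    rw [hF, h2]
    simp only [C_sub] at h1 ⊢
    linear_combination (-(C (C b) : PP) * X ^ 2) * h1
  · have e : 1 * jac F (C (C b) * X ^ 2 + C (C (a 0))) 1 = -(4 * C (C b) * X * C X) := by
      unfold jac
      rw [hdy, dx_one, dy_one]
      have k1 : dx (C (C b) * X ^ 2 + C (C (a 0))) = 2 * C (C b) * X := by
        simp only [pow_two, dx_add, dx_mul, dx_X, dx_C]
        ring
      have k2 : dy (C (C b) * X ^ 2 + C (C (a 0))) = 0 := by
        simp only [pow_two, dy_add, dy_mul, dy_X, dy_C]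
        ring
      rw [k1, k2]
      ring
    rw [e] at hJ
    have n4 : (C (4 : ℤ) : ℤ[X]) ≠ 0 := C_ne_zero.2 (by norm_num)
    have n4' : (4 : ℤ[X]) ≠ 0 := n4
    have hbC : (C b : ℤ[X]) ≠ 0 := C_ne_zero.2 hb
    have hne1 : (4 * C b * X * (X ^ 2 - C q) : ℤ[X]) ≠ 0 :=
      mul_ne_zero (mul_ne_zero (mul_ne_zero n4' hbC) X_ne_zero)
        (X_pow_sub_C_ne_zero (by norm_num) q)
    have hne2 : (C b * X ^ 4 - C s * X ^ 2 + C q : ℤ[X]) ≠ 0 := by
      intro h0
      have := congrArg (fun p : ℤ[X] => p.coeff 0) h0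
      simp only [coeff_add, coeff_sub, coeff_C_mul, coeff_X_pow, coeff_C_zero, coeff_zero] at this
      norm_num at this
      exact hq this
    refine const_of_elim (w := 4 * C b * X * (X ^ 2 - C q))
      (v := 4 * C b * X * (C b * X ^ 4 - C s * X ^ 2 + C q)) hne1
      (mul_ne_zero (mul_ne_zero (mul_ne_zero n4' hbC) X_ne_zero) hne2)
      (U := 4 * C (C b) * C X) (V := -(C (C b) * X ^ 3 - C (C s) * X))
      (U' := -(4 * C (C b) * X)) (V' := -(C (X : ℤ[X]))) ?_ ?_ hD hJ
    · rw [hF]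
      have e4 : (C (4 : ℤ[X]) : PP) = 4 := rfl
      simp only [map_mul, map_sub, map_pow, e4]
      ring
    · rw [hF]
      simp only [Polynomial.map_mul, Polynomial.map_sub, Polynomial.map_add, Polynomial.map_pow,
        map_X, map_C, Polynomial.map_ofNat]
      ring

theorem FW_deg (a0 a1 a2 : ℤ) : (FW a0 a1 a2).natDegree = 3 := by
  have h1 : ((X - C (C a0)) * (X - C (C a1)) * (X - C (C a2)) : PP).natDegree = 3 := by
    rw [natDegree_mul (mul_ne_zero (X_sub_C_ne_zero _) (X_sub_C_ne_zero _)) (X_sub_C_ne_zero _),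
      natDegree_mul (X_sub_C_ne_zero _) (X_sub_C_ne_zero _), natDegree_X_sub_C, natDegree_X_sub_C,
      natDegree_X_sub_C]
  unfold FW
  rw [← h1]
  refine natDegree_sub_eq_right_of_natDegree_lt ?_
  rw [h1, ← C_pow, natDegree_C]
  norm_num

theorem FW_not_dvd {a0 a1 a2 : ℤ} {G : PP} (hG : G ≠ 0) (hd : G.natDegree < 3) :
    ¬ FW a0 a1 a2 ∣ G := fun h => by
  have := natDegree_le_of_dvd h hG
  rw [FW_deg] at this
  omega

/-- the curve lies under itself -/
theorem cw_self (a0 a1 a2 : ℤ) : Cw (weiW a0 a1 a2) (FW a0 a1 a2) := by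
  refine ⟨X, C X, 1, 3, ?_, ⟨1, ?_⟩, FW_not_dvd one_ne_zero (by rw [natDegree_one]; norm_num),
    fun a b c hc => ?_⟩
  · intro i j hij
    by_contra hcon
    apply hij
    unfold weiW
    rcases i with _ | _ | _ | _ | i
    · rcases j with _ | _ | _ | j
      · omega
      · omega
      · omega
      · rfl
    · rcases j with _ | j
      · omega
      · rfl
    · rcases j with _ | j
      · omega
      · rfl
    · rcases j with _ | j
      · omega
      · rfl
    · rfl
  · rw [mul_one]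
    unfold hom weiW FW
    simp only [List.length_cons, List.length_nil, Finset.sum_range_succ,
      Finset.sum_range_zero, List.getD_cons_zero, List.getD_cons_succ]
    simp only [map_neg, map_zero, map_one, map_mul, map_add]
    ring
  · rintro ⟨h1, -⟩
    refine FW_not_dvd ?_ ?_ h1
    · intro h0
      have := congrArg (fun p : PP => p.coeff 1) h0
      simp only [mul_one, coeff_sub, coeff_C_mul, coeff_X_one, coeff_C, coeff_zero] at this
      norm_num at this
      exact hc this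
    · have h2 : (C (C c) * X - C (C a) * 1 : PP) = C (C c) * X + C (-(C a)) := by
        rw [C_neg]
        ring
      have h3 : (C (C c) * X + C (-(C a)) : PP).natDegree ≤ 1 := natDegree_linear_le
      rw [h2]
      omega

end Q44.DA
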