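import Pool.Agent.Q44.DA.Sol
import Pool.Agent.Q44.DA.Fin

/-! The certificates for finitely many zeros -/

set_option autoImplicit false
set_option maxHeartbeats 400000

open scoped Classical

namespace Q44.DA

open Polynomial WeierstrassCurve
open Pool.Agent.Helper446 Pool.Agent.W960.GA
open Q155.AL (PP CB cf2 cf2_ext toP toP_cb toP_surj evR evR_CC evR_C evR_map w1 w1_surj rowX rowY
  toP_rowX toP_rowY Zer mem_Zer bez2 zadd zsub zmul nadd nsub)
open Pool.Agent.TH841.AL (ciadd cisub cimul cineg cicast citoNat cinatAbs cp_or cp_sqf cp_dvd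
  cp_modSol cp_realSol RealSol ModSol)
open Pool.Agent.H437R2.Man.MW (crv crv_eqn crv_nonsing Pt)
open Q44.JQ.X (cv)

/-! ### The derivatives -/

theorem cf2_swap (F : PP) (i j : ℕ) : cf2 (Bivariate.swap F) i j = cf2 F j i := by
  induction F using Polynomial.induction_on' with
  | add f g hf hg =>
    have e1 : cf2 (f + g) j i = cf2 f j i + cf2 g j i := by
      unfold cf2
      rw [coeff_add, coeff_add]
    have e2 : cf2 (Bivariate.swap (f + g)) i j =
        cf2 (Bivariate.swap f) i j + cf2 (Bivariate.swap g) i j := by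
      unfold cf2
      rw [map_add, coeff_add, coeff_add]
    rw [e1, e2, hf, hg]
  | monomial n f =>
    induction f using Polynomial.induction_on' with
    | add f g hf hg =>
      have e1 : cf2 (monomial n (f + g)) j i = cf2 (monomial n f) j i + cf2 (monomial n g) j i := by
        unfold cf2
        rw [map_add, coeff_add, coeff_add]
      have e2 : cf2 (Bivariate.swap (monomial n (f + g))) i j =
          cf2 (Bivariate.swap (monomial n f)) i j + cf2 (Bivariate.swap (monomial n g)) i j := by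
        unfold cf2
        rw [map_add, map_add, coeff_add, coeff_add]
      rw [e1, e2, hf, hg]
    | monomial m a =>
      rw [Bivariate.swap_monomial_monomial]
      unfold cf2
      simp only [coeff_monomial]
      split_ifs <;> simp_all [coeff_monomial]

theorem cf2_dx (F : PP) (i j : ℕ) : cf2 (dx F) i j = cf2 F (i + 1) j * (i + 1 : ℕ) := by
  unfold cf2 dx
  rw [coeff_derivative]
  have e : ((i : ℤ[X]) + 1) = C ((i + 1 : ℕ) : ℤ) := by
    push_cast
    simp
  rw [e, coeff_mul_C]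

theorem cf2_dy (F : PP) (i j : ℕ) : cf2 (dy F) i j = cf2 F i (j + 1) * (j + 1 : ℕ) := by
  unfold dy
  rw [cf2_swap]
  have := cf2_dx (Bivariate.swap F) j i
  unfold dx at this
  rw [this, cf2_swap]

section

variable {α : Type} [Primcodable α]

theorem ncast {f : α → ℕ} (hf : Computable f) : Computable fun a => ((f a : ℕ) : ℤ) := cicast hf

theorem CBdx {F : α → PP} (hF : CB F) : CB fun a => dx (F a) := by
  obtain ⟨B, hB, h⟩ := hF.bd
  refine ⟨?_, B, hB, fun a i j hij => ?_⟩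
  · have p : Computable fun t : α × (ℕ × ℕ) => (t.1, (t.2.1 + 1, t.2.2)) :=
      Computable.pair Computable.fst (Computable.pair
        (Computable.succ.comp (Computable.fst.comp Computable.snd)) (Computable.snd.comp Computable.snd))
    have q := hF.coef.comp p
    have r : Computable fun t : α × (ℕ × ℕ) => (((t.2.1 + 1 : ℕ)) : ℤ) :=
      ncast (Computable.succ.comp (Computable.fst.comp Computable.snd))
    exact (zmul q r).of_eq fun t => (cf2_dx _ _ _).symm
  · rw [cf2_dx] at hij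
    have := h a _ _ (left_ne_zero_of_mul hij)
    show i < B a ∧ j < B a
    omega

theorem CBdy {F : α → PP} (hF : CB F) : CB fun a => dy (F a) := by
  obtain ⟨B, hB, h⟩ := hF.bd
  refine ⟨?_, B, hB, fun a i j hij => ?_⟩
  · have p : Computable fun t : α × (ℕ × ℕ) => (t.1, (t.2.1, t.2.2 + 1)) :=
      Computable.pair Computable.fst (Computable.pair (Computable.fst.comp Computable.snd)
        (Computable.succ.comp (Computable.snd.comp Computable.snd)))
    have q := hF.coef.comp p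
    have r : Computable fun t : α × (ℕ × ℕ) => (((t.2.2 + 1 : ℕ)) : ℤ) :=
      ncast (Computable.succ.comp (Computable.snd.comp Computable.snd))
    exact (zmul q r).of_eq fun t => (cf2_dy _ _ _).symm
  · rw [cf2_dy] at hij
    have := h a _ _ (left_ne_zero_of_mul hij)
    show i < B a ∧ j < B a
    omega

theorem CBjac {F P R : α → PP} (hF : CB F) (hP : CB P) (hR : CB R) :
    CB fun a => jac (F a) (P a) (R a) :=
  ((CBdx hF).mul (((CBdy hP).mul hR).sub (hP.mul (CBdy hR)))).sub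
    ((CBdy hF).mul (((CBdx hP).mul hR).sub (hP.mul (CBdx hR))))

/-! ### The check -/

attribute [local fun_prop] ciadd cisub cimul cineg cicast citoNat cinatAbs

theorem cp_In4 {c : α → P4} {b d : α → ℤ} (hc : Computable c) (hb : Computable b)
    (hd : Computable d) : ComputablePred fun a => In4 (c a) (b a) (d a) := by
  have hp : Computable fun a => (b a, d a) := Computable.pair hb hd
  have c1 : Computable fun a => (c a).1 := Computable.fst.comp hc
  have s1 : Computable fun a => (c a).2 := Computable.snd.comp hc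
  have c2 : Computable fun a => (c a).2.1 := Computable.fst.comp s1
  have s2 : Computable fun a => (c a).2.2 := Computable.snd.comp s1
  have c3 : Computable fun a => (c a).2.2.1 := Computable.fst.comp s2
  have c4 : Computable fun a => (c a).2.2.2 := Computable.snd.comp s2
  exact cp_or (RE.cp_eq hp c1) (cp_or (RE.cp_eq hp c2) (cp_or (RE.cp_eq hp c3) (RE.cp_eq hp c4)))

theorem cp_Ob2 {A B b d : α → ℤ} {c : α → P4} {m : α → ℕ} (hA : Computable A) (hB : Computable B)
    (hc : Computable c) (hm : Computable m) (hb : Computable b) (hd : Computable d) :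
    ComputablePred fun a => Ob2 (A a) (B a) (c a) (m a) (b a) (d a) :=
  cp_or (cp_In4 hc hb hd) (cp_or (cp_not (cp_realSol hA hB hb hd)) (cp_not (cp_modSol hA hB hb hd hm)))

/-- four signs -/
def Ob8 (A B : ℤ) (c : P4) (m b d : ℕ) : Prop :=
  (Squarefree b ∧ b ∣ (2 * A * B * (A - B)).natAbs) → (Squarefree d ∧ d ∣ (2 * A * B * (A - B)).natAbs) →
    (Ob2 A B c m b d ∧ Ob2 A B c m b (-(d : ℤ))) ∧ (Ob2 A B c m (-(b : ℤ)) d ∧ Ob2 A B c m (-(b : ℤ)) (-(d : ℤ)))

theorem cp_Ob8 {A B : α → ℤ} {c : α → P4} {m b d : α → ℕ} (hA : Computable A) (hB : Computable B)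
    (hc : Computable c) (hm : Computable m) (hb : Computable b) (hd : Computable d) :
    ComputablePred fun a => Ob8 (A a) (B a) (c a) (m a) (b a) (d a) := by
  unfold Ob8
  have hn : Computable fun a => (2 * A a * B a * (A a - B a)).natAbs := by fun_prop
  have hbz : Computable fun a => ((b a : ℕ) : ℤ) := ncast hb
  have hdz : Computable fun a => ((d a : ℕ) : ℤ) := ncast hd
  have hbn : Computable fun a => -((b a : ℕ) : ℤ) := cineg hbz
  have hdn : Computable fun a => -((d a : ℕ) : ℤ) := cineg hdz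
  refine cp_imp (cp_and (cp_sqf hb) (cp_dvd hb hn)) (cp_imp (cp_and (cp_sqf hd) (cp_dvd hd hn))
    (cp_and (cp_and ?_ ?_) (cp_and ?_ ?_)))
  · exact cp_Ob2 hA hB hc hm hbz hdz
  · exact cp_Ob2 hA hB hc hm hbz hdn
  · exact cp_Ob2 hA hB hc hm hbn hdz
  · exact cp_Ob2 hA hB hc hm hbn hdn

theorem cp_all2 {A B : α → ℤ} {c : α → P4} {m : α → ℕ} (hA : Computable A) (hB : Computable B)
    (hc : Computable c) (hm : Computable m) :
    ComputablePred fun a => ∀ b < (2 * A a * B a * (A a - B a)).natAbs + 1,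
      ∀ d < (2 * A a * B a * (A a - B a)).natAbs + 1, Ob8 (A a) (B a) (c a) (m a) b d := by
  have hn : Computable fun a => (2 * A a * B a * (A a - B a)).natAbs + 1 := by fun_prop
  refine cp_all_lt (p := fun a b => ∀ d < (2 * A a * B a * (A a - B a)).natAbs + 1,
    Ob8 (A a) (B a) (c a) (m a) b d) ?_ hn
  have hn' : Computable fun t : α × ℕ => (2 * A t.1 * B t.1 * (A t.1 - B t.1)).natAbs + 1 :=
    hn.comp Computable.fst
  refine cp_all_lt (p := fun (t : α × ℕ) d => Ob8 (A t.1) (B t.1) (c t.1) (m t.1) t.2 d) ?_ hn'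
  have f1 : Computable fun t : (α × ℕ) × ℕ => t.1.1 := Computable.fst.comp Computable.fst
  have f2 : Computable fun t : (α × ℕ) × ℕ => t.1.2 := Computable.snd.comp Computable.fst
  have f3 : Computable fun t : (α × ℕ) × ℕ => t.2 := Computable.snd
  exact cp_Ob8 (hA.comp f1) (hB.comp f1) (hc.comp f1) (hm.comp f1) f2 f3

theorem all2_iff {A B : ℤ} {c : P4} {m : ℕ} (hn : 2 * A * B * (A - B) ≠ 0) :
    (∀ b < (2 * A * B * (A - B)).natAbs + 1, ∀ d < (2 * A * B * (A - B)).natAbs + 1,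
      Ob8 A B c m b d) ↔ Ck A B c m := by
  constructor
  · intro h b d hb hd hbn hdn
    have h1 : b.natAbs ∣ (2 * A * B * (A - B)).natAbs := Int.natAbs_dvd_natAbs.2 hbn
    have h2 : d.natAbs ∣ (2 * A * B * (A - B)).natAbs := Int.natAbs_dvd_natAbs.2 hdn
    have h3 := Nat.le_of_dvd (Int.natAbs_pos.2 hn) h1
    have h4 := Nat.le_of_dvd (Int.natAbs_pos.2 hn) h2
    obtain ⟨⟨g1, g2⟩, g3, g4⟩ := h b.natAbs (by omega) d.natAbs (by omega)
      ⟨Int.squarefree_natAbs.2 hb, h1⟩ ⟨Int.squarefree_natAbs.2 hd, h2⟩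
    rcases Int.natAbs_eq b with h5 | h5 <;> rcases Int.natAbs_eq d with h6 | h6
    · rw [h5, h6]; exact g1
    · rw [h5, h6]; exact g2
    · rw [h5, h6]; exact g3
    · rw [h5, h6]; exact g4
  · rintro h b - d - ⟨hb, hbn⟩ ⟨hd, hdn⟩
    have h1 : (b : ℤ) ∣ 2 * A * B * (A - B) := Int.natCast_dvd.2 hbn
    have h2 : (d : ℤ) ∣ 2 * A * B * (A - B) := Int.natCast_dvd.2 hdn
    have s1 := Int.squarefree_natCast.2 hb
    have s2 := Int.squarefree_natCast.2 hd
    have s3 : Squarefree (-(b : ℤ)) := by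
      rw [← Int.squarefree_natAbs, Int.natAbs_neg, Int.natAbs_natCast]; exact hb
    have s4 : Squarefree (-(d : ℤ)) := by
      rw [← Int.squarefree_natAbs, Int.natAbs_neg, Int.natAbs_natCast]; exact hd
    exact ⟨⟨h _ _ s1 s2 h1 h2, h _ _ s1 s4 h1 (neg_dvd.2 h2)⟩,
      h _ _ s3 s2 (neg_dvd.2 h1) h2, h _ _ s3 s4 (neg_dvd.2 h1) (neg_dvd.2 h2)⟩

end

/-! ### The certificates -/

/-- the certificates -/
abbrev NT : Type := (ℤ × (ℤ × ℤ)) × ((P4 × ℕ) × List (List (List ℤ)))

/-- the polynomial number `k` -/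
noncomputable def pj (l : List (List (List ℤ))) (k : ℕ) : PP := toP (l.getD k [])

/-- the product which has to be prime to the polynomial -/
noncomputable def tj (L : List (List ℤ)) (l : List (List (List ℤ))) : PP :=
  pj l 2 * jac (toP L) (pj l 0) (pj l 2)

/-- the certificates for finitely many zeros -/
def NCq (L : List (List ℤ)) (c : NT) : Prop :=
  (¬ c.1.1 = c.1.2.1 ∧ ¬ c.1.1 = c.1.2.2 ∧ ¬ c.1.2.1 = c.1.2.2) ∧
  (¬ c.2.1.2 = 0 ∧ ∀ b < (2 * (c.1.2.1 - c.1.1) * (c.1.2.2 - c.1.1) *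
    ((c.1.2.1 - c.1.1) - (c.1.2.2 - c.1.1))).natAbs + 1, ∀ d < (2 * (c.1.2.1 - c.1.1) *
    (c.1.2.2 - c.1.1) * ((c.1.2.1 - c.1.1) - (c.1.2.2 - c.1.1))).natAbs + 1,
    Ob8 (c.1.2.1 - c.1.1) (c.1.2.2 - c.1.1) c.2.1.1 c.2.1.2 b d) ∧
  pj c.2.2 1 * pj c.2.2 1 * pj c.2.2 2 =
    (pj c.2.2 0 - C (C c.1.1) * pj c.2.2 2) * (pj c.2.2 0 - C (C c.1.2.1) * pj c.2.2 2) *
      (pj c.2.2 0 - C (C c.1.2.2) * pj c.2.2 2) + toP L * pj c.2.2 3 ∧
  (pj c.2.2 4 * toP L + pj c.2.2 5 * tj L c.2.2 = toP (rowY (c.2.2.getD 6 [])) ∧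
    ¬ toP (rowY (c.2.2.getD 6 [])) = C (C 0)) ∧
  (pj c.2.2 7 * toP L + pj c.2.2 8 * tj L c.2.2 = toP (rowX (c.2.2.getD 9 [])) ∧
    ¬ toP (rowX (c.2.2.getD 9 [])) = C (C 0))

theorem ns_n {a : Fin 3 → ℤ} (hi : Function.Injective a) :
    2 * (a 1 - a 0) * (a 2 - a 0) * ((a 1 - a 0) - (a 2 - a 0)) ≠ 0 := by
  refine mul_ne_zero (mul_ne_zero (mul_ne_zero two_ne_zero ?_) ?_) ?_
  · exact sub_ne_zero.2 (hi.ne (by decide))
  · exact sub_ne_zero.2 (hi.ne (by decide))
  · rw [sub_sub_sub_cancel_right]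
    exact sub_ne_zero.2 (hi.ne (by decide))

theorem inj3 {a0 a1 a2 : ℤ} (h1 : ¬ a0 = a1) (h2 : ¬ a0 = a2) (h3 : ¬ a1 = a2) :
    Function.Injective ![a0, a1, a2] := by
  intro i j hij
  fin_cases i <;> fin_cases j <;> simp_all

/-- **Soundness.** -/
theorem ncq_sound {L : List (List ℤ)} {c : NT} (h : NCq L c) : (Zer L).Finite := by
  obtain ⟨⟨a0, a1, a2⟩, ⟨c4, m⟩, l⟩ := c
  obtain ⟨⟨d01, d02, d12⟩, ⟨hm, hck⟩, he, ⟨h2, h3⟩, h4, h5⟩ := h
  simp only at d01 d02 d12 hm hck he h2 h3 h4 h5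
  obtain ⟨a, ha⟩ : ∃ a : Fin 3 → ℤ, a = ![a0, a1, a2] := ⟨_, rfl⟩
  have hi : Function.Injective a := by rw [ha]; exact inj3 d01 d02 d12
  have e0 : a 0 = a0 := by rw [ha]; rfl
  have e1 : a 1 = a1 := by rw [ha]; rfl
  have e2 : a 2 = a2 := by rw [ha]; rfl
  rw [← e0, ← e1, ← e2] at hck he
  have hfin := ck_sound hi (Nat.pos_of_ne_zero hm) ((all2_iff (ns_n hi)).1 hck)
  rw [toP_rowY] at h2 h3
  rw [toP_rowX] at h4 h5
  obtain ⟨w, hw⟩ : ∃ w, w = w1 ((l.getD 6 []).getD 0 []) := ⟨_, rfl⟩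
  obtain ⟨v, hv⟩ : ∃ v, v = w1 ((l.getD 9 []).getD 0 []) := ⟨_, rfl⟩
  rw [← hw] at h2 h3
  rw [← hv] at h4 h5
  have hw0 : w ≠ 0 := by
    rintro rfl
    exact h3 (by simp)
  have hv0 : v ≠ 0 := by
    rintro rfl
    exact h5 (by simp)
  obtain ⟨X, hX⟩ : ∃ X : Set ℚ, X = {x | ∃ y : ℚ, y ^ 2 =
      (x + -(a 0 : ℚ)) * (x + -(a 1 : ℚ)) * (x + -(a 2 : ℚ))} := ⟨_, rfl⟩
  have q01 := neg_ne hi (i := 0) (j := 1) (by decide)
  have q02 := neg_ne hi (i := 0) (j := 2) (by decide)
  have q12 := neg_ne hi (i := 1) (j := 2) (by decide)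
  have hXf : X.Finite := by
    refine (Set.finite_range (fun P : Pt (-(a 0 : ℚ)) (-(a 1 : ℚ)) (-(a 2 : ℚ)) =>
      (match P with
        | Affine.Point.zero => (0 : ℚ)
        | Affine.Point.some x _ _ => x))).subset fun x hx => ?_
    rw [hX] at hx
    obtain ⟨y, hy⟩ := hx
    exact ⟨Affine.Point.some x y (crv_nonsing q01 q02 q12 hy), rfl⟩
  have key := fin_all (F := toP L) (P := pj l 0) (R := pj l 2) hXf (fun p hp hR => ?_)
    hw0 hv0 h2 h4
  · refine key.subset fun p hp => ?_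
    rw [mem_Zer] at hp
    exact hp
  · rw [hX]
    refine ⟨evR p.1 p.2 (pj l 1) / evR p.1 p.2 (pj l 2), ?_⟩
    have h6 := congrArg (evR p.1 p.2) he
    simp only [map_add, map_mul, map_sub, evR_CC] at h6
    rw [hp, zero_mul, add_zero] at h6
    obtain ⟨R, hRR⟩ : ∃ R, R = evR p.1 p.2 (pj l 2) := ⟨_, rfl⟩
    rw [← hRR] at h6 hR ⊢
    field_simp
    linear_combination h6

/-- a rational map to the curve which is constant on no component -/
def Mq (F : PP) (a : Fin 3 → ℤ) : Prop := ∃ P Q R : PP,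
  F ∣ Q ^ 2 * R - (P - C (C (a 0)) * R) * (P - C (C (a 1)) * R) * (P - C (C (a 2)) * R) ∧
  ∀ D : PP, D ∣ F → D ∣ R * jac F P R → ∃ n : ℤ, D = C (C n)

/-- **Completeness.** -/
theorem ncq_complete {L : List (List ℤ)} {a : Fin 3 → ℤ} (h0 : a 0 + a 1 + a 2 = 0)
    (hi : Function.Injective a) (hs : Sol (cv a)) (h : Mq (toP L) a) : ∃ c, NCq L c := by
  obtain ⟨P, Q, R, ⟨G, hG⟩, hc⟩ := h
  obtain ⟨c4, m, hm, hck⟩ := sol_ck h0 hi hs
  obtain ⟨⟨U, V, w, hw, h1⟩, U', V', v, hv, h2⟩ := bez2 hc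
  obtain ⟨l0, e0⟩ := toP_surj P
  obtain ⟨l1, e1⟩ := toP_surj Q
  obtain ⟨l2, e2⟩ := toP_surj R
  obtain ⟨l3, e3⟩ := toP_surj G
  obtain ⟨l4, e4⟩ := toP_surj U
  obtain ⟨l5, e5⟩ := toP_surj V
  obtain ⟨l6, e6⟩ := w1_surj w
  obtain ⟨l7, e7⟩ := toP_surj U'
  obtain ⟨l8, e8⟩ := toP_surj V'
  obtain ⟨l9, e9⟩ := w1_surj v
  obtain ⟨l, hl⟩ : ∃ l, l = [l0, l1, l2, l3, l4, l5, [l6], l7, l8, [l9]] := ⟨_, rfl⟩
  have p0 : pj l 0 = P := by rw [hl]; exact e0
  have p1 : pj l 1 = Q := by rw [hl]; exact e1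
  have p2 : pj l 2 = R := by rw [hl]; exact e2
  have p3 : pj l 3 = G := by rw [hl]; exact e3
  have p4 : pj l 4 = U := by rw [hl]; exact e4
  have p5 : pj l 5 = V := by rw [hl]; exact e5
  have p7 : pj l 7 = U' := by rw [hl]; exact e7
  have p8 : pj l 8 = V' := by rw [hl]; exact e8
  have q6 : toP (rowY (l.getD 6 [])) = C w := by
    rw [toP_rowY, hl]
    exact congrArg C e6
  have q9 : toP (rowX (l.getD 9 [])) = v.map C := by
    rw [toP_rowX, hl]
    exact congrArg (Polynomial.map C) e9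
  refine ⟨((a 0, a 1, a 2), (c4, m), l), ⟨hi.ne (by decide), hi.ne (by decide), hi.ne (by decide)⟩,
    ⟨hm.ne', (all2_iff (ns_n hi)).2 hck⟩, ?_, ⟨?_, ?_⟩, ?_, ?_⟩
  · simp only
    rw [p0, p1, p2, p3]
    linear_combination hG
  · simp only
    unfold tj
    rw [p0, p2, p4, p5, q6]
    exact h1
  · simp only
    rw [q6, C_0, C_0]
    exact C_ne_zero.2 hw
  · simp only
    unfold tj
    rw [p0, p2, p7, p8, q9]
    exact h2
  · simp only
    rw [q9, C_0, C_0]
    rwa [Polynomial.map_eq_zero_iff C_injective]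

/-- the certificates can be checked -/
theorem ncq_cp : ComputablePred fun t : (List (List ℤ)) × NT => NCq t.1 t.2 := by
  have hL : Computable fun t : (List (List ℤ)) × NT => t.1 := Computable.fst
  have hc : Computable fun t : (List (List ℤ)) × NT => t.2 := Computable.snd
  have hc1 : Computable fun t : (List (List ℤ)) × NT => t.2.1 := Computable.fst.comp hc
  have h0 : Computable fun t : (List (List ℤ)) × NT => t.2.1.1 := Computable.fst.comp hc1
  have hc12 : Computable fun t : (List (List ℤ)) × NT => t.2.1.2 := Computable.snd.comp hc1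
  have h1 : Computable fun t : (List (List ℤ)) × NT => t.2.1.2.1 := Computable.fst.comp hc12
  have h2 : Computable fun t : (List (List ℤ)) × NT => t.2.1.2.2 := Computable.snd.comp hc12
  have hc2 : Computable fun t : (List (List ℤ)) × NT => t.2.2 := Computable.snd.comp hc
  have hc21 : Computable fun t : (List (List ℤ)) × NT => t.2.2.1 := Computable.fst.comp hc2
  have h4 : Computable fun t : (List (List ℤ)) × NT => t.2.2.1.1 := Computable.fst.comp hc21
  have hm : Computable fun t : (List (List ℤ)) × NT => t.2.2.1.2 := Computable.snd.comp hc21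
  have hl : Computable fun t : (List (List ℤ)) × NT => t.2.2.2 := Computable.snd.comp hc2
  have hg : Computable fun t : (List (List (List ℤ))) × ℕ => t.1.getD t.2 [] :=
    (Primrec.list_getD (α := List (List ℤ)) []).to_comp
  have hk : ∀ k : ℕ, Computable fun t : (List (List ℤ)) × NT => t.2.2.2.getD k [] := by
    intro k
    have p : Computable fun t : (List (List ℤ)) × NT => (t.2.2.2, k) :=
      Computable.pair hl (Computable.const k)
    exact hg.comp p
  have hpk : ∀ k : ℕ, CB fun t : (List (List ℤ)) × NT => pj t.2.2.2 k := fun k => toP_cb (hk k)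
  have hF : CB fun t : (List (List ℤ)) × NT => toP t.1 := toP_cb hL
  have htk : CB fun t : (List (List ℤ)) × NT => tj t.1 t.2.2.2 :=
    (hpk 2).mul (CBjac hF (hpk 0) (hpk 2))
  have hrow : Computable fun M : List (List ℤ) => M.getD 0 [] := by
    have h0 : Computable fun t : (List (List ℤ)) × ℕ => t.1.getD t.2 [] :=
      (Primrec.list_getD (α := List ℤ) []).to_comp
    have p : Computable fun M : List (List ℤ) => (M, 0) :=
      Computable.pair Computable.id (Computable.const 0)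
    exact h0.comp p
  have hY : Computable rowY := by
    have h0 : Computable fun t : (List ℤ) × (List (List ℤ)) => t.1 :: t.2 :=
      (Primrec.list_cons (α := List ℤ)).to_comp
    have p : Computable fun M : List (List ℤ) => (M.getD 0 [], ([] : List (List ℤ))) :=
      Computable.pair hrow (Computable.const [])
    exact h0.comp p
  have hX : Computable rowX := by
    have h0 : Primrec fun l : List ℤ => l.map fun a => [a] := by
      refine Primrec.list_map Primrec.id ?_
      have h1 : Primrec fun t : (List ℤ) × ℤ => [t.2] :=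
        Primrec.list_cons.comp Primrec.snd (Primrec.const [])
      exact h1.to₂
    exact h0.to_comp.comp hrow
  have h6 : CB fun t : (List (List ℤ)) × NT => toP (rowY (t.2.2.2.getD 6 [])) :=
    toP_cb (hY.comp (hk 6))
  have h9 : CB fun t : (List (List ℤ)) × NT => toP (rowX (t.2.2.2.getD 9 [])) :=
    toP_cb (hX.comp (hk 9))
  have hz : CB fun _ : (List (List ℤ)) × NT => (C (C 0) : PP) :=
    CB.const (f := fun _ => 0) (Computable.const 0)
  have hA : Computable fun t : (List (List ℤ)) × NT => t.2.1.2.1 - t.2.1.1 := zsub h1 h0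
  have hB : Computable fun t : (List (List ℤ)) × NT => t.2.1.2.2 - t.2.1.1 := zsub h2 h0
  refine cp_and (cp_and (cp_not (RE.cp_eq h0 h1)) (cp_and (cp_not (RE.cp_eq h0 h2))
    (cp_not (RE.cp_eq h1 h2)))) (cp_and (cp_and (cp_not (RE.cp_eq hm (Computable.const 0)))
      (cp_all2 hA hB h4 hm)) (cp_and ?_ (cp_and (cp_and ?_ (cp_not ?_)) (cp_and ?_ (cp_not ?_)))))
  · exact CB.eq (((hpk 1).mul (hpk 1)).mul (hpk 2))
      (((((hpk 0).sub ((CB.const h0).mul (hpk 2))).mul ((hpk 0).sub ((CB.const h1).mul (hpk 2)))).mul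
        ((hpk 0).sub ((CB.const h2).mul (hpk 2)))).add (hF.mul (hpk 3)))
  · exact CB.eq (((hpk 4).mul hF).add ((hpk 5).mul htk)) h6
  · exact CB.eq h6 hz
  · exact CB.eq (((hpk 7).mul hF).add ((hpk 8).mul htk)) h9
  · exact CB.eq h9 hz

theorem ncq_re : REPred fun L => ∃ c, NCq L c := RE.ex (p := NCq) ncq_cp.to_re

end Q44.DA
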