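import Pool.Agent.Q44.DA.Neg
import Pool.Agent.Q155.AL.Mul

/-! Curves covered by an elliptic curve: infinitely many zeros -/

set_option autoImplicit false
set_option maxHeartbeats 400000

open scoped Classical

namespace Q44.DA

open Polynomial WeierstrassCurve
open Pool.Agent.Helper446 Pool.Agent.W960.GA
open Q155.AL (PP CB cf2 toP toP_cb toP_surj evR evR_CC evR_C evR_X evR_CX evR_lin evR_hom Zer mem_Zer
  hom hom_cb hom_add hq_eq dg dg_bd dg_comp hz hz_eq hz_comp zadd zsub zmul nadd)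
open Pool.Agent.H437R2.Man.MW (crv crv_eqn crv_nonsing Pt)

section gen

variable {F : PP}

/-- the zeros of an irreducible polynomial and of another one -/
theorem fin_zr (hF : Irreducible F) {G : PP} (hG : ¬ F ∣ G) :
    {p : ℚ × ℚ | evR p.1 p.2 F = 0 ∧ evR p.1 p.2 G = 0}.Finite := by
  refine fin_common fun D h1 h2 => ?_
  obtain ⟨E, hE⟩ := h1
  rcases hF.isUnit_or_isUnit hE with hu | hu
  · exact isConst_of_unit hu
  · exfalso
    apply hG
    have h1 : F ∣ D := by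
      rw [hE]
      exact hu.mul_right_dvd.2 dvd_rfl
    exact h1.trans h2

theorem inf_S2 (hF : Irreducible F) (hinf : {p : ℚ × ℚ | evR p.1 p.2 F = 0}.Infinite) {W : PP}
    (hW : ¬ F ∣ W) : {p : ℚ × ℚ | evR p.1 p.2 F = 0 ∧ evR p.1 p.2 W ≠ 0}.Infinite := by
  intro h
  refine hinf ((h.union (fin_zr hF hW)).subset fun p hp => ?_)
  by_cases g : evR p.1 p.2 W = 0
  · exact Or.inr ⟨hp, g⟩
  · exact Or.inl ⟨hp, g⟩

theorem const_q2 (hF : Irreducible F) {T : Set (ℚ × ℚ)} (hT : T.Infinite)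
    (hTA : ∀ p ∈ T, evR p.1 p.2 F = 0)
    {U V W : PP} (x y : ℚ) (hU : ∀ p ∈ T, evR p.1 p.2 U = x * evR p.1 p.2 W)
    (hV : ∀ p ∈ T, evR p.1 p.2 V = y * evR p.1 p.2 W) :
    ∃ a b c : ℤ, c ≠ 0 ∧ F ∣ C (C c) * U - C (C a) * W ∧ F ∣ C (C c) * V - C (C b) * W := by
  have hx : (x.den : ℚ) ≠ 0 := by exact_mod_cast x.den_ne_zero
  have hy : (y.den : ℚ) ≠ 0 := by exact_mod_cast y.den_ne_zero
  refine ⟨x.num * y.den, y.num * x.den, x.den * y.den, ?_, ?_, ?_⟩
  · have h1 := x.den_ne_zero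
    have h2 := y.den_ne_zero
    positivity
  · by_contra hc
    refine hT ((fin_zr hF hc).subset fun p hp => ⟨hTA p hp, ?_⟩)
    rw [evR_lin, hU p hp]
    push_cast
    have e : (x.den : ℚ) * x = x.num := by
      rw [mul_comm]
      exact Rat.mul_den_eq_num x
    linear_combination (y.den : ℚ) * evR p.1 p.2 W * e
  · by_contra hc
    refine hT ((fin_zr hF hc).subset fun p hp => ⟨hTA p hp, ?_⟩)
    rw [evR_lin, hV p hp]
    push_cast
    have e : (y.den : ℚ) * y = y.num := by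
      rw [mul_comm]
      exact Rat.mul_den_eq_num y
    linear_combination (x.den : ℚ) * evR p.1 p.2 W * e

/-- infinitely many zeros -/
theorem inf_core2 (hF : Irreducible F) (hinf : {p : ℚ × ℚ | evR p.1 p.2 F = 0}.Infinite)
    {N : ℕ} {L : List (List ℤ)} {U V W : PP} (hN : ∀ i j, (L.getD i []).getD j 0 ≠ 0 → i + j ≤ N)
    (hd : F ∣ hom N L U V W) (hW : ¬ F ∣ W)
    (hnc : ∀ a b c : ℤ, c ≠ 0 →
      ¬ (F ∣ C (C c) * U - C (C a) * W ∧ F ∣ C (C c) * V - C (C b) * W)) :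
    (Zer L).Infinite := by
  intro hfin
  have hS := inf_S2 hF hinf hW
  obtain ⟨Φ, hΦ⟩ : ∃ Φ : ℚ × ℚ → ℚ × ℚ, ∀ p, Φ p =
      (evR p.1 p.2 U / evR p.1 p.2 W, evR p.1 p.2 V / evR p.1 p.2 W) := ⟨_, fun _ => rfl⟩
  have hmap : ∀ p : ℚ × ℚ, evR p.1 p.2 F = 0 → evR p.1 p.2 W ≠ 0 → Φ p ∈ Zer L := by
    intro p hp hw
    rw [mem_Zer, hΦ]
    obtain ⟨G, hG⟩ := hd
    have h1 := congrArg (evR p.1 p.2) hG
    rw [evR_hom, map_mul, hp, zero_mul, hq_eq hw hN] at h1
    exact (mul_eq_zero.1 h1).resolve_left (pow_ne_zero _ hw)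
  have hq : ∃ q ∈ Zer L, {p : ℚ × ℚ | evR p.1 p.2 F = 0 ∧ evR p.1 p.2 W ≠ 0 ∧ Φ p = q}.Infinite := by
    by_contra hc
    push Not at hc
    apply hS
    refine (hfin.biUnion fun q hq => hc q hq).subset fun p hp => ?_
    rw [Set.mem_iUnion₂]
    exact ⟨Φ p, hmap p hp.1 hp.2, hp.1, hp.2, rfl⟩
  obtain ⟨q, -, hinf'⟩ := hq
  obtain ⟨a, b, c, hc, h1, h2⟩ := const_q2 hF hinf' (fun p hp => hp.1) q.1 q.2
    (U := U) (V := V) (W := W) (fun p hp => by
      have h := congrArg Prod.fst ((hΦ p).symm.trans hp.2.2)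
      simp only at h
      rw [← h, div_mul_cancel₀ _ hp.2.1]) (fun p hp => by
      have h := congrArg Prod.snd ((hΦ p).symm.trans hp.2.2)
      simp only at h
      rw [← h, div_mul_cancel₀ _ hp.2.1])
  exact hnc a b c hc ⟨h1, h2⟩

end gen

/-! ### The Weierstrass equation -/

/-- the Weierstrass polynomial -/
noncomputable def FW (a0 a1 a2 : ℤ) : PP :=
  C X ^ 2 - (X - C (C a0)) * (X - C (C a1)) * (X - C (C a2))

/-- its coefficients -/
def weiW (a0 a1 a2 : ℤ) : List (List ℤ) :=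
  [[a0 * a1 * a2, 0, 1], [-(a0 * a1 + a0 * a2 + a1 * a2)], [a0 + a1 + a2], [-1]]

theorem toP_weiW (a0 a1 a2 : ℤ) : toP (weiW a0 a1 a2) = FW a0 a1 a2 := by
  unfold toP weiW FW
  simp only [List.length_cons, List.length_nil, Finset.sum_range_succ,
    Finset.sum_range_zero, List.getD_cons_zero, List.getD_cons_succ]
  simp only [map_neg, map_zero, map_one, map_mul, map_add]
  ring

theorem evR_FW (a0 a1 a2 : ℤ) (x y : ℚ) :
    evR x y (FW a0 a1 a2) = y ^ 2 - (x - a0) * (x - a1) * (x - a2) := by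
  unfold FW
  simp only [map_sub, map_mul, map_pow, evR_CC, evR_CX, evR_X]

theorem irr_FW {a0 a1 a2 : ℤ} (h1 : ¬ a0 = a1) (h2 : ¬ a0 = a2) : Irreducible (FW a0 a1 a2) := by
  obtain ⟨f, hf⟩ : ∃ f : ℤ[X], f = (X - C a0) * (X - C a1) * (X - C a2) := ⟨_, rfl⟩
  have e : FW a0 a1 a2 = Bivariate.swap (X ^ 2 + C (-f)) := by
    rw [map_add, map_pow, Bivariate.swap_Y, Bivariate.swap_C, hf]
    unfold FW
    simp only [Polynomial.map_neg, Polynomial.map_mul, Polynomial.map_sub, map_X, map_C]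
    ring
  rw [e]
  refine (MulEquiv.irreducible_iff (Bivariate.swap (R := ℤ)).toMulEquiv).2 ?_
  have hp : Prime (X - C a0 : ℤ[X]) := prime_X_sub_C a0
  have hm := monic_X_pow_add_C (-f) (by norm_num : (2 : ℕ) ≠ 0)
  have hdeg : (X ^ 2 + C (-f) : PP).degree = 2 := degree_X_pow_add_C (by norm_num) _
  refine irreducible_of_eisenstein_criterion (P := Ideal.span {X - C a0})
    ((Ideal.span_singleton_prime hp.ne_zero).2 hp) ?_ ?_ ?_ ?_ hm.isPrimitive
  · rw [hm.leadingCoeff, Ideal.mem_span_singleton]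
    exact fun h => hp.not_isUnit (isUnit_of_dvd_one h)
  · intro n hn'
    rw [hdeg] at hn'
    have h4 : n < 2 := by exact_mod_cast hn'
    rw [Ideal.mem_span_singleton, coeff_add, coeff_X_pow, if_neg (by omega), zero_add, coeff_C]
    split_ifs
    · rw [dvd_neg, hf, mul_assoc]
      exact dvd_mul_right _ _
    · exact dvd_zero _
  · rw [hdeg]
    norm_num
  · rw [coeff_add, coeff_X_pow, if_neg (by norm_num), zero_add, coeff_C_zero,
      Ideal.span_singleton_pow, Ideal.mem_span_singleton, dvd_neg, hf, mul_assoc, pow_two]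
    intro h
    have h3 := (mul_dvd_mul_iff_left hp.ne_zero).1 h
    have h4 : IsRoot ((X - C a1) * (X - C a2)) a0 := dvd_iff_isRoot.1 h3
    rw [IsRoot, eval_mul, eval_sub, eval_sub, eval_X, eval_C, eval_C] at h4
    rcases mul_eq_zero.1 h4 with h5 | h5
    · exact h1 (sub_eq_zero.1 h5)
    · exact h2 (sub_eq_zero.1 h5)

/-- the rational points and the zeros -/
theorem inf_iff {a0 a1 a2 : ℤ} (h1 : ¬ a0 = a1) (h2 : ¬ a0 = a2) (h3 : ¬ a1 = a2) :
    {p : ℚ × ℚ | evR p.1 p.2 (FW a0 a1 a2) = 0}.Infinite ↔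
      Infinite (Pt (-(a0 : ℚ)) (-(a1 : ℚ)) (-(a2 : ℚ))) := by
  have q1 : (-(a0 : ℚ)) ≠ -(a1 : ℚ) := fun h => h1 (by exact_mod_cast neg_injective h)
  have q2 : (-(a0 : ℚ)) ≠ -(a2 : ℚ) := fun h => h2 (by exact_mod_cast neg_injective h)
  have q3 : (-(a1 : ℚ)) ≠ -(a2 : ℚ) := fun h => h3 (by exact_mod_cast neg_injective h)
  have key : ∀ x y : ℚ, evR x y (FW a0 a1 a2) = 0 ↔
      y ^ 2 = (x + -(a0 : ℚ)) * (x + -(a1 : ℚ)) * (x + -(a2 : ℚ)) := by
    intro x y
    rw [evR_FW, sub_eq_zero, sub_eq_add_neg x, sub_eq_add_neg x, sub_eq_add_neg x]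
  constructor
  · intro hinf
    by_contra hfin
    rw [not_infinite_iff_finite] at hfin
    apply hinf
    refine (Set.finite_range (fun P : Pt (-(a0 : ℚ)) (-(a1 : ℚ)) (-(a2 : ℚ)) =>
      (match P with
        | Affine.Point.zero => ((0, 0) : ℚ × ℚ)
        | Affine.Point.some x y _ => (x, y)))).subset fun p hp => ?_
    exact ⟨Affine.Point.some p.1 p.2 (crv_nonsing q1 q2 q3 ((key _ _).1 hp)), rfl⟩
  · intro hinf hfin
    have h4 : Finite {p : ℚ × ℚ | evR p.1 p.2 (FW a0 a1 a2) = 0} := hfin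
    have h5 : Finite (Option {p : ℚ × ℚ | evR p.1 p.2 (FW a0 a1 a2) = 0}) := inferInstance
    refine @not_finite _ hinf (Finite.of_injective
      (fun P : Pt (-(a0 : ℚ)) (-(a1 : ℚ)) (-(a2 : ℚ)) =>
      (match P with
        | Affine.Point.zero => (none : Option {p : ℚ × ℚ | evR p.1 p.2 (FW a0 a1 a2) = 0})
        | Affine.Point.some x y h => some ⟨(x, y), (key x y).2 (crv_eqn.1 h.1)⟩)) ?_)
    intro P Q hPQ
    cases P with
    | zero =>
      cases Q with
      | zero => rfl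
      | some x y h => simp at hPQ
    | some x y h =>
      cases Q with
      | zero => simp at hPQ
      | some x' y' h' =>
        simp only [Option.some.injEq, Subtype.mk.injEq, Prod.mk.injEq] at hPQ
        obtain ⟨rfl, rfl⟩ := hPQ
        rfl

end Q44.DA
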