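import Pool.Agent.Q44.DA.Pos

/-! The certificates for infinitely many zeros -/

set_option autoImplicit false
set_option maxHeartbeats 400000

open scoped Classical

namespace Q44.DA

open Polynomial WeierstrassCurve
open Pool.Agent.Helper446 Pool.Agent.W960.GA
open Q155.AL (PP CB cf2 toP toP_cb toP_surj evR evR_CC evR_C evR_X evR_CX evR_lin evR_hom Zer mem_Zer
  hom hom_cb hom_add hq_eq dg dg_bd dg_comp hz hz_eq hz_comp zadd zsub zmul nadd)
open Pool.Agent.TH841.AL (ciadd cisub cimul cineg cicast citoNat cinatAbs cp_or)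
open Pool.Agent.H437R2.Man.MW (crv crv_eqn crv_nonsing Pt)
open Q44.JQ.X (cv)

/-- the point `(x / z, y / z)` lies on the curve -/
def OnW (a0 a1 a2 x y z : ℤ) : Prop :=
  ¬ z = 0 ∧ y * y * z = (x - a0 * z) * (x - a1 * z) * (x - a2 * z)

theorem onW_iff {a0 a1 a2 x y z : ℤ} (hz : z ≠ 0) : OnW a0 a1 a2 x y z ↔
    evR ((x : ℚ) / z) ((y : ℚ) / z) (FW a0 a1 a2) = 0 := by
  have hzq : (z : ℚ) ≠ 0 := by exact_mod_cast hz
  rw [evR_FW]
  have e : ((y : ℚ) / z) ^ 2 - ((x : ℚ) / z - a0) * ((x : ℚ) / z - a1) * ((x : ℚ) / z - a2) =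
      ((y * y * z - (x - a0 * z) * (x - a1 * z) * (x - a2 * z) : ℤ) : ℚ) / (z : ℚ) ^ 3 := by
    push_cast
    field_simp
  rw [e, div_eq_zero_iff, or_iff_left (pow_ne_zero 3 hzq), Int.cast_eq_zero, sub_eq_zero]
  exact ⟨fun h => h.2, fun h => ⟨hz, h⟩⟩

theorem int_ptW {a0 a1 a2 : ℤ} {p : ℚ × ℚ} (hp : evR p.1 p.2 (FW a0 a1 a2) = 0) :
    ∃ x y z : ℤ, OnW a0 a1 a2 x y z ∧ p = ((x : ℚ) / z, (y : ℚ) / z) := by
  obtain ⟨X, Y⟩ := p
  simp only at hp
  have h1 : (X.den : ℚ) ≠ 0 := by exact_mod_cast X.den_ne_zero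
  have h2 : (Y.den : ℚ) ≠ 0 := by exact_mod_cast Y.den_ne_zero
  have hz : (X.den * Y.den : ℤ) ≠ 0 :=
    mul_ne_zero (by exact_mod_cast X.den_ne_zero) (by exact_mod_cast Y.den_ne_zero)
  have e1 : X = ((X.num * Y.den : ℤ) : ℚ) / ((X.den * Y.den : ℤ) : ℚ) := by
    push_cast
    rw [mul_div_mul_right _ _ h2]
    exact (Rat.num_div_den X).symm
  have e2 : Y = ((Y.num * X.den : ℤ) : ℚ) / ((X.den * Y.den : ℤ) : ℚ) := by
    push_cast
    rw [mul_comm (X.den : ℚ), mul_div_mul_right _ _ h1]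
    exact (Rat.num_div_den Y).symm
  refine ⟨X.num * Y.den, Y.num * X.den, X.den * Y.den, ?_, Prod.ext e1 e2⟩
  rw [onW_iff hz, ← e1, ← e2]
  exact hp

/-- the product of the classes -/
def cls (a x z x' z' : ℤ) : ℤ := (x - a * z) * (x' - a * z') * (z * z')

theorem cls_iff {a x z x' z' : ℤ} (hz : z ≠ 0) (hz' : z' ≠ 0) : IsSquare (cls a x z x' z') ↔
    IsSquare (((x : ℚ) / z + -(a : ℚ)) * ((x' : ℚ) / z' + -(a : ℚ))) := by
  have hzq : (z : ℚ) ≠ 0 := by exact_mod_cast hz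
  have hzq' : (z' : ℚ) ≠ 0 := by exact_mod_cast hz'
  rw [← Rat.isSquare_intCast_iff]
  have e : ((cls a x z x' z' : ℤ) : ℚ) =
      (((x : ℚ) / z + -(a : ℚ)) * ((x' : ℚ) / z' + -(a : ℚ))) * (z * z') ^ 2 := by
    unfold cls
    push_cast
    field_simp
    ring
  rw [e]
  constructor
  · rintro ⟨r, hr⟩
    refine ⟨r / (z * z'), ?_⟩
    rw [div_mul_div_comm, ← hr, ← pow_two, mul_div_assoc, div_self (pow_ne_zero 2
      (mul_ne_zero hzq hzq')), mul_one]
  · rintro ⟨r, hr⟩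
    exact ⟨r * (z * z'), by rw [hr]; ring⟩

/-- the certificates -/
abbrev QT : Type := (ℤ × (ℤ × ℤ)) × ((ℕ × ℕ) × (List ℤ × List (List (List ℤ))))

/-- the numbers of a certificate -/
def zi (c : QT) (k : ℕ) : ℤ := c.2.2.1.getD k 0

/-- the polynomials of a certificate -/
def li (c : QT) (k : ℕ) : List (List ℤ) := c.2.2.2.getD k []

/-- the values at the two points -/
noncomputable def v1 (c : QT) (k : ℕ) : ℤ := hz c.2.1.2 (li c k) (zi c 0) (zi c 1) (zi c 2)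

/-- the values at the two points -/
noncomputable def v2 (c : QT) (k : ℕ) : ℤ := hz c.2.1.2 (li c k) (zi c 3) (zi c 4) (zi c 5)

/-- one of the five points -/
def Pf (c : QT) (i : ℕ) : Prop :=
  OnW c.1.1 c.1.2.1 c.1.2.2 (zi c (3 * i + 6)) (zi c (3 * i + 7)) (zi c (3 * i + 8)) ∧
    ¬ zi c (3 * i + 7) = 0

/-- two of the five points -/
def Pg (c : QT) (i j : ℕ) : Prop := ¬ i = j →
  ¬ (IsSquare (cls c.1.1 (zi c (3 * i + 6)) (zi c (3 * i + 8)) (zi c (3 * j + 6)) (zi c (3 * j + 8))) ∧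
    IsSquare (cls c.1.2.1 (zi c (3 * i + 6)) (zi c (3 * i + 8)) (zi c (3 * j + 6)) (zi c (3 * j + 8))))

/-- the certificates for infinitely many zeros -/
def PCq (L : List (List ℤ)) (c : QT) : Prop :=
  (¬ c.1.1 = c.1.2.1 ∧ ¬ c.1.1 = c.1.2.2 ∧ ¬ c.1.2.1 = c.1.2.2) ∧
  ((∀ i < 5, Pf c i) ∧ ∀ i < 5, ∀ j < 5, Pg c i j) ∧
  (OnW c.1.1 c.1.2.1 c.1.2.2 (zi c 0) (zi c 1) (zi c 2) ∧
    OnW c.1.1 c.1.2.1 c.1.2.2 (zi c 3) (zi c 4) (zi c 5)) ∧
  (dg L ≤ c.2.1.1 ∧ dg (li c 0) ≤ c.2.1.2 ∧ dg (li c 1) ≤ c.2.1.2 ∧ dg (li c 2) ≤ c.2.1.2) ∧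
  hom c.2.1.1 L (toP (li c 0)) (toP (li c 1)) (toP (li c 2)) =
    toP (weiW c.1.1 c.1.2.1 c.1.2.2) * toP (li c 3) ∧
  (¬ v1 c 2 = 0 ∧ ¬ v2 c 2 = 0) ∧
  ¬ (v1 c 0 * v2 c 2 = v2 c 0 * v1 c 2 ∧ v1 c 1 * v2 c 2 = v2 c 1 * v1 c 2)

/-- **Soundness.** -/
theorem pcq_sound {L : List (List ℤ)} {c : QT} (h : PCq L c) : (Zer L).Infinite := by
  obtain ⟨⟨d1, d2, d3⟩, ⟨hf, hg⟩, ⟨o1, o2⟩, ⟨g0, g1, g2, g3⟩, hid, ⟨w1, w2⟩, hne⟩ := h
  rw [toP_weiW] at hid
  have hF := irr_FW d1 d2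
  have q1 : (-(c.1.1 : ℚ)) ≠ -(c.1.2.1 : ℚ) := fun h => d1 (by exact_mod_cast neg_injective h)
  have q2 : (-(c.1.1 : ℚ)) ≠ -(c.1.2.2 : ℚ) := fun h => d2 (by exact_mod_cast neg_injective h)
  have q3 : (-(c.1.2.1 : ℚ)) ≠ -(c.1.2.2 : ℚ) := fun h => d3 (by exact_mod_cast neg_injective h)
  have hinf : {p : ℚ × ℚ | evR p.1 p.2 (FW c.1.1 c.1.2.1 c.1.2.2) = 0}.Infinite := by
    rw [inf_iff d1 d2 d3]
    refine of_five (e1 := -(c.1.1 : ℚ)) (e2 := -(c.1.2.1 : ℚ)) (e3 := -(c.1.2.2 : ℚ)) q1 q2 q3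
      (x := fun i : Fin 5 => (zi c (3 * i + 6) : ℚ) / zi c (3 * i + 8))
      (y := fun i : Fin 5 => (zi c (3 * i + 7) : ℚ) / zi c (3 * i + 8)) (fun i => ?_) fun i j hij he => ?_
    · obtain ⟨h1, h2⟩ := hf i i.2
      have hz := h1.1
      have h3 := (onW_iff hz).1 h1
      rw [evR_FW, sub_eq_zero] at h3
      refine ⟨div_ne_zero (by exact_mod_cast h2) (by exact_mod_cast hz), ?_⟩
      rw [h3]
      simp only [sub_eq_add_neg]
    · obtain ⟨h1, -⟩ := hf i i.2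
      obtain ⟨h2, -⟩ := hf j j.2
      refine hg i i.2 j j.2 (fun h => hij (Fin.ext h)) ⟨?_, ?_⟩
      · rw [cls_iff h1.1 h2.1]
        exact he.1
      · rw [cls_iff h1.1 h2.1]
        exact he.2
  have hd := o1.1
  have hd' := o2.1
  have hdq : (zi c 2 : ℚ) ≠ 0 := by exact_mod_cast hd
  have hdq' : (zi c 5 : ℚ) ≠ 0 := by exact_mod_cast hd'
  have m1 := (onW_iff hd).1 o1
  have m2 := (onW_iff hd').1 o2
  have a2 := hz_eq (a := zi c 0) (b := zi c 1) hd g3
  have b2 := hz_eq (a := zi c 3) (b := zi c 4) hd' g3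
  change ((v1 c 2 : ℤ) : ℚ) = _ at a2
  change ((v2 c 2 : ℤ) : ℚ) = _ at b2
  have key : ∀ (k : ℕ) (u t : ℤ), t ≠ 0 → dg (li c k) ≤ c.2.1.2 →
      FW c.1.1 c.1.2.1 c.1.2.2 ∣ C (C t) * toP (li c k) - C (C u) * toP (li c 2) →
      v1 c k * v2 c 2 = v2 c k * v1 c 2 := by
    rintro k u t ht hdg ⟨G, hG⟩
    have h1 := hz_eq (a := zi c 0) (b := zi c 1) hd hdg
    have h2 := hz_eq (a := zi c 3) (b := zi c 4) hd' hdg
    change ((v1 c k : ℤ) : ℚ) = _ at h1
    change ((v2 c k : ℤ) : ℚ) = _ at h2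
    have k1 := congrArg (evR ((zi c 0 : ℚ) / zi c 2) ((zi c 1 : ℚ) / zi c 2)) hG
    have k2 := congrArg (evR ((zi c 3 : ℚ) / zi c 5) ((zi c 4 : ℚ) / zi c 5)) hG
    rw [evR_lin, map_mul, m1, zero_mul] at k1
    rw [evR_lin, map_mul, m2, zero_mul] at k2
    have htq : (t : ℚ) ≠ 0 := by exact_mod_cast ht
    have h3 : ((v1 c k : ℤ) : ℚ) * v2 c 2 = (v2 c k : ℚ) * v1 c 2 := by
      rw [h1, h2, a2, b2]
      refine mul_left_cancel₀ htq ?_
      linear_combination ((zi c 2 : ℚ) ^ c.2.1.2 * (zi c 5 : ℚ) ^ c.2.1.2 *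
        evR ((zi c 3 : ℚ) / zi c 5) ((zi c 4 : ℚ) / zi c 5) (toP (li c 2))) * k1 -
        ((zi c 2 : ℚ) ^ c.2.1.2 * (zi c 5 : ℚ) ^ c.2.1.2 *
        evR ((zi c 0 : ℚ) / zi c 2) ((zi c 1 : ℚ) / zi c 2) (toP (li c 2))) * k2
    exact_mod_cast h3
  refine inf_core2 hF hinf (dg_bd g0) ⟨_, hid⟩ ?_ fun u v t ht => ?_
  · rintro ⟨G, hG⟩
    have k1 := congrArg (evR ((zi c 0 : ℚ) / zi c 2) ((zi c 1 : ℚ) / zi c 2)) hG
    rw [map_mul, m1, zero_mul] at k1
    rw [k1, mul_zero] at a2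
    exact w1 (by exact_mod_cast a2)
  · rintro ⟨h1, h2⟩
    exact hne ⟨key 0 u t ht g1 h1, key 1 v t ht g2 h2⟩

/-- the curve covers the curve `f = 0` -/
def Cw (L : List (List ℤ)) (F : PP) : Prop :=
  ∃ (U V W : PP) (N : ℕ), (∀ i j, (L.getD i []).getD j 0 ≠ 0 → i + j ≤ N) ∧
    F ∣ hom N L U V W ∧ ¬ F ∣ W ∧ ∀ a b c : ℤ, c ≠ 0 →
      ¬ (F ∣ C (C c) * U - C (C a) * W ∧ F ∣ C (C c) * V - C (C b) * W)

/-- **Completeness.** -/
theorem pcq_complete {a0 a1 a2 : ℤ} (d1 : ¬ a0 = a1) (d2 : ¬ a0 = a2) (d3 : ¬ a1 = a2)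
    (hinf : {p : ℚ × ℚ | evR p.1 p.2 (FW a0 a1 a2) = 0}.Infinite) {L : List (List ℤ)}
    (h : Cw L (FW a0 a1 a2)) : ∃ c, PCq L c := by
  obtain ⟨U, V, W, N, hN, hd, hW, hnc⟩ := h
  have hF := irr_FW d1 d2
  have hS := inf_S2 hF hinf hW
  have q1 : (-(a0 : ℚ)) ≠ -(a1 : ℚ) := fun h => d1 (by exact_mod_cast neg_injective h)
  have q2 : (-(a0 : ℚ)) ≠ -(a2 : ℚ) := fun h => d2 (by exact_mod_cast neg_injective h)
  have q3 : (-(a1 : ℚ)) ≠ -(a2 : ℚ) := fun h => d3 (by exact_mod_cast neg_injective h)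
  -- the first point
  obtain ⟨P, hP, hPW⟩ := hS.nonempty
  -- the second point
  obtain ⟨Q, hQ, hQW, hPQ⟩ : ∃ Q : ℚ × ℚ, evR Q.1 Q.2 (FW a0 a1 a2) = 0 ∧ evR Q.1 Q.2 W ≠ 0 ∧
      ¬ (evR P.1 P.2 U * evR Q.1 Q.2 W = evR Q.1 Q.2 U * evR P.1 P.2 W ∧
        evR P.1 P.2 V * evR Q.1 Q.2 W = evR Q.1 Q.2 V * evR P.1 P.2 W) := by
    by_contra hc
    push Not at hc
    obtain ⟨a, b, c, h0, h1, h2⟩ := const_q2 hF hS (fun p hp => hp.1)
      (evR P.1 P.2 U / evR P.1 P.2 W) (evR P.1 P.2 V / evR P.1 P.2 W) (U := U) (V := V) (W := W)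
      (fun p hp => by
        have := (hc p hp.1 hp.2).1
        field_simp
        linear_combination -this) (fun p hp => by
        have := (hc p hp.1 hp.2).2
        field_simp
        linear_combination -this)
    exact hnc a b c h0 ⟨h1, h2⟩
  obtain ⟨a, b, d, hab, rfl⟩ := int_ptW hP
  obtain ⟨a', b', d', hab', rfl⟩ := int_ptW hQ
  have hd0 := hab.1
  have hd0' := hab'.1
  simp only at hPW hQW hPQ
  -- the five points
  obtain ⟨x, y, hxy, hne⟩ := exists_five q1 q2 q3 ((inf_iff d1 d2 d3).1 hinf)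
  have hpt : ∀ i : Fin 5, ∃ X Y Z : ℤ, OnW a0 a1 a2 X Y Z ∧ x i = (X : ℚ) / Z ∧ y i = (Y : ℚ) / Z := by
    intro i
    have h1 : evR (x i) (y i) (FW a0 a1 a2) = 0 := by
      rw [evR_FW, (hxy i).2]
      ring
    obtain ⟨X, Y, Z, h2, h3⟩ := int_ptW (p := (x i, y i)) h1
    exact ⟨X, Y, Z, h2, (Prod.mk.inj h3).1, (Prod.mk.inj h3).2⟩
  choose X Y Z hO hx hy using hpt
  obtain ⟨l0, e0⟩ := toP_surj U
  obtain ⟨l1, e1⟩ := toP_surj V
  obtain ⟨l2, e2⟩ := toP_surj W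
  obtain ⟨G, hG⟩ := hd
  obtain ⟨l3, e3⟩ := toP_surj (G * W ^ dg L)
  have hdq : (d : ℚ) ≠ 0 := by exact_mod_cast hd0
  have hdq' : (d' : ℚ) ≠ 0 := by exact_mod_cast hd0'
  obtain ⟨zl, hzl⟩ : ∃ zl : List ℤ, zl = [a, b, d, a', b', d', X 0, Y 0, Z 0, X 1, Y 1, Z 1,
    X 2, Y 2, Z 2, X 3, Y 3, Z 3, X 4, Y 4, Z 4] := ⟨_, rfl⟩
  obtain ⟨c, hc⟩ : ∃ c : QT, c = ((a0, a1, a2), (N + dg L, dg l0 + dg l1 + dg l2), zl,
    [l0, l1, l2, l3]) := ⟨_, rfl⟩
  have z6 : ∀ i : Fin 5, zi c (3 * i + 6) = X i := by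
    intro i
    rw [hc, hzl]
    fin_cases i <;> rfl
  have z7 : ∀ i : Fin 5, zi c (3 * i + 7) = Y i := by
    intro i
    rw [hc, hzl]
    fin_cases i <;> rfl
  have z8 : ∀ i : Fin 5, zi c (3 * i + 8) = Z i := by
    intro i
    rw [hc, hzl]
    fin_cases i <;> rfl
  have c1 : c.1 = (a0, a1, a2) := by rw [hc]
  refine ⟨c, ?_, ⟨fun i hi => ?_, fun i hi j hj hij => ?_⟩, ?_, ?_⟩
  · rw [c1]
    exact ⟨d1, d2, d3⟩
  · have h6 := z6 ⟨i, hi⟩
    have h7 := z7 ⟨i, hi⟩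
    have h8 := z8 ⟨i, hi⟩
    simp only at h6 h7 h8
    unfold Pf
    rw [h6, h7, h8, c1]
    refine ⟨hO _, fun h0 => (hxy ⟨i, hi⟩).1 ?_⟩
    rw [hy, h0]
    simp
  · have h6 := z6 ⟨i, hi⟩
    have h8 := z8 ⟨i, hi⟩
    have k6 := z6 ⟨j, hj⟩
    have k8 := z8 ⟨j, hj⟩
    simp only at h6 h8 k6 k8
    rw [h6, h8, k6, k8, c1]
    rintro ⟨h1, h2⟩
    refine hne ⟨i, hi⟩ ⟨j, hj⟩ (fun h => hij (congrArg Fin.val h)) ⟨?_, ?_⟩
    · rw [hx, hx]
      exact (cls_iff (hO _).1 (hO _).1).1 h1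
    · rw [hx, hx]
      exact (cls_iff (hO _).1 (hO _).1).1 h2
  · rw [c1, hc]
    have t0 : zi ((a0, a1, a2), (N + dg L, dg l0 + dg l1 + dg l2), zl, [l0, l1, l2, l3]) 0 = a := by
      rw [hzl]; rfl
    have t1 : zi ((a0, a1, a2), (N + dg L, dg l0 + dg l1 + dg l2), zl, [l0, l1, l2, l3]) 1 = b := by
      rw [hzl]; rfl
    have t2 : zi ((a0, a1, a2), (N + dg L, dg l0 + dg l1 + dg l2), zl, [l0, l1, l2, l3]) 2 = d := by
      rw [hzl]; rfl
    have t3 : zi ((a0, a1, a2), (N + dg L, dg l0 + dg l1 + dg l2), zl, [l0, l1, l2, l3]) 3 = a' := by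
      rw [hzl]; rfl
    have t4 : zi ((a0, a1, a2), (N + dg L, dg l0 + dg l1 + dg l2), zl, [l0, l1, l2, l3]) 4 = b' := by
      rw [hzl]; rfl
    have t5 : zi ((a0, a1, a2), (N + dg L, dg l0 + dg l1 + dg l2), zl, [l0, l1, l2, l3]) 5 = d' := by
      rw [hzl]; rfl
    rw [t0, t1, t2, t3, t4, t5]
    exact ⟨hab, hab'⟩
  · obtain ⟨M, hM⟩ : ∃ M, M = dg l0 + dg l1 + dg l2 := ⟨_, rfl⟩
    have g1 : c.2.1.1 = N + dg L := by rw [hc]
    have g2 : c.2.1.2 = M := by rw [hc, hM]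
    have f0 : li c 0 = l0 := by rw [hc]; rfl
    have f1 : li c 1 = l1 := by rw [hc]; rfl
    have f2 : li c 2 = l2 := by rw [hc]; rfl
    have f3 : li c 3 = l3 := by rw [hc]; rfl
    have w0 : ∀ k, v1 c k = hz M (li c k) a b d := by
      intro k
      unfold v1
      rw [g2]
      have t0 : zi c 0 = a := by rw [hc, hzl]; rfl
      have t1 : zi c 1 = b := by rw [hc, hzl]; rfl
      have t2 : zi c 2 = d := by rw [hc, hzl]; rfl
      rw [t0, t1, t2]
    have w0' : ∀ k, v2 c k = hz M (li c k) a' b' d' := by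
      intro k
      unfold v2
      rw [g2]
      have t0 : zi c 3 = a' := by rw [hc, hzl]; rfl
      have t1 : zi c 4 = b' := by rw [hc, hzl]; rfl
      have t2 : zi c 5 = d' := by rw [hc, hzl]; rfl
      rw [t0, t1, t2]
    rw [w0, w0, w0, w0', w0', w0', g1, g2, f0, f1, f2, f3, c1]
    have m0 : dg l0 ≤ M := by omega
    have m1 : dg l1 ≤ M := by omega
    have m2 : dg l2 ≤ M := by omega
    have a0' := hz_eq (l := l0) (M := M) (a := a) (b := b) hd0 m0
    have a1' := hz_eq (l := l1) (M := M) (a := a) (b := b) hd0 m1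
    have a2' := hz_eq (l := l2) (M := M) (a := a) (b := b) hd0 m2
    have b0' := hz_eq (l := l0) (M := M) (a := a') (b := b') hd0' m0
    have b1' := hz_eq (l := l1) (M := M) (a := a') (b := b') hd0' m1
    have b2' := hz_eq (l := l2) (M := M) (a := a') (b := b') hd0' m2
    rw [e0] at a0' b0'
    rw [e1] at a1' b1'
    rw [e2] at a2' b2'
    refine ⟨⟨Nat.le_add_left _ _, m0, m1, m2⟩, ?_, ⟨?_, ?_⟩, ?_⟩
    · rw [hom_add hN, e0, e1, e2, e3, hG, toP_weiW]
      ring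
    · intro h
      rw [h, Int.cast_zero] at a2'
      exact (mul_ne_zero (pow_ne_zero _ hdq) hPW) a2'.symm
    · intro h
      rw [h, Int.cast_zero] at b2'
      exact (mul_ne_zero (pow_ne_zero _ hdq') hQW) b2'.symm
    · have hpp : (d : ℚ) ^ M * (d' : ℚ) ^ M ≠ 0 :=
        mul_ne_zero (pow_ne_zero _ hdq) (pow_ne_zero _ hdq')
      rintro ⟨r1, r2⟩
      have s1 : ((hz M l0 a b d : ℤ) : ℚ) * hz M l2 a' b' d' =
          (hz M l0 a' b' d' : ℚ) * hz M l2 a b d := by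
        exact_mod_cast r1
      have s2 : ((hz M l1 a b d : ℤ) : ℚ) * hz M l2 a' b' d' =
          (hz M l1 a' b' d' : ℚ) * hz M l2 a b d := by
        exact_mod_cast r2
      rw [a0', b0', a2', b2'] at s1
      rw [a1', b1', a2', b2'] at s2
      refine hPQ ⟨mul_left_cancel₀ hpp ?_, mul_left_cancel₀ hpp ?_⟩
      · linear_combination s1
      · linear_combination s2

/-! ### The certificates can be checked -/

section

variable {α : Type} [Primcodable α]

attribute [local fun_prop] ciadd cisub cimul cineg cicast citoNat cinatAbs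

theorem cp_sq {f : α → ℤ} (hf : Computable f) : ComputablePred fun a => IsSquare (f a) := by
  have h1 : ComputablePred fun a => ∃ k < (f a).natAbs + 1, (k : ℤ) * k = f a := by
    refine cp_ex_lt (p := fun a k => (k : ℤ) * k = f a) ?_ (by fun_prop)
    exact RE.cp_eq (zmul (ncast Computable.snd) (ncast Computable.snd)) (hf.comp Computable.fst)
  refine cp_of_iff h1 fun a => ?_
  constructor
  · rintro ⟨r, hr⟩
    refine ⟨r.natAbs, ?_, ?_⟩
    · rw [hr, Int.natAbs_mul]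
      have := Nat.le_mul_self r.natAbs
      omega
    · rw [hr]
      exact Int.natAbs_mul_self
  · rintro ⟨k, -, hk⟩
    exact ⟨k, hk.symm⟩

theorem cp_OnW {a0 a1 a2 x y z : α → ℤ} (h0 : Computable a0) (h1 : Computable a1)
    (h2 : Computable a2) (hx : Computable x) (hy : Computable y) (hz : Computable z) :
    ComputablePred fun a => OnW (a0 a) (a1 a) (a2 a) (x a) (y a) (z a) :=
  cp_and (cp_not (RE.cp_eq hz (Computable.const 0)))
    (RE.cp_eq (zmul (zmul hy hy) hz) (zmul (zmul (zsub hx (zmul h0 hz)) (zsub hx (zmul h1 hz)))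
      (zsub hx (zmul h2 hz))))

theorem cls_comp {a x z x' z' : α → ℤ} (ha : Computable a) (hx : Computable x) (hz : Computable z)
    (hx' : Computable x') (hz' : Computable z') :
    Computable fun t => cls (a t) (x t) (z t) (x' t) (z' t) :=
  zmul (zmul (zsub hx (zmul ha hz)) (zsub hx' (zmul ha hz'))) (zmul hz hz')

theorem zi_comp {c : α → QT} {k : α → ℕ} (hc : Computable c) (hk : Computable k) :
    Computable fun a => zi (c a) (k a) := by
  have gz : Computable fun t : (List ℤ) × ℕ => t.1.getD t.2 0 :=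
    (Primrec.list_getD (α := ℤ) 0).to_comp
  have h1 : Computable fun a => (c a).2 := Computable.snd.comp hc
  have h2 : Computable fun a => (c a).2.2 := Computable.snd.comp h1
  have h3 : Computable fun a => (c a).2.2.1 := Computable.fst.comp h2
  have p : Computable fun a => ((c a).2.2.1, k a) := Computable.pair h3 hk
  have q := gz.comp p
  exact q

theorem cp_Pf {c : α → QT} {i : α → ℕ} (hc : Computable c) (hi : Computable i) :
    ComputablePred fun a => Pf (c a) (i a) := by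
  have c1 : Computable fun a => (c a).1 := Computable.fst.comp hc
  have a0 : Computable fun a => (c a).1.1 := Computable.fst.comp c1
  have c2 : Computable fun a => (c a).1.2 := Computable.snd.comp c1
  have a1 : Computable fun a => (c a).1.2.1 := Computable.fst.comp c2
  have a2 : Computable fun a => (c a).1.2.2 := Computable.snd.comp c2
  have k : ∀ m : ℕ, Computable fun a => 3 * i a + m := fun m => by fun_prop
  exact cp_and (cp_OnW a0 a1 a2 (zi_comp hc (k 6)) (zi_comp hc (k 7)) (zi_comp hc (k 8)))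
    (cp_not (RE.cp_eq (zi_comp hc (k 7)) (Computable.const 0)))

theorem cp_Pg {c : α → QT} {i j : α → ℕ} (hc : Computable c) (hi : Computable i)
    (hj : Computable j) : ComputablePred fun a => Pg (c a) (i a) (j a) := by
  have c1 : Computable fun a => (c a).1 := Computable.fst.comp hc
  have a0 : Computable fun a => (c a).1.1 := Computable.fst.comp c1
  have c2 : Computable fun a => (c a).1.2 := Computable.snd.comp c1
  have a1 : Computable fun a => (c a).1.2.1 := Computable.fst.comp c2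
  have k : ∀ m : ℕ, Computable fun a => 3 * i a + m := fun m => by fun_prop
  have l : ∀ m : ℕ, Computable fun a => 3 * j a + m := fun m => by fun_prop
  exact cp_imp (cp_not (RE.cp_eq hi hj)) (cp_not (cp_and
    (cp_sq (cls_comp a0 (zi_comp hc (k 6)) (zi_comp hc (k 8)) (zi_comp hc (l 6)) (zi_comp hc (l 8))))
    (cp_sq (cls_comp a1 (zi_comp hc (k 6)) (zi_comp hc (k 8)) (zi_comp hc (l 6))
      (zi_comp hc (l 8))))))

theorem cons_comp {β : Type} [Primcodable β] {f : α → β} {g : α → List β} (hf : Computable f)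
    (hg : Computable g) : Computable fun a => f a :: g a := Computable.list_cons.comp hf hg

theorem weiW_comp {a0 a1 a2 : α → ℤ} (h0 : Computable a0) (h1 : Computable a1)
    (h2 : Computable a2) : Computable fun a => weiW (a0 a) (a1 a) (a2 a) := by
  have r0 : Computable fun a => (a0 a * a1 a * a2 a) :: ([0, 1] : List ℤ) :=
    cons_comp (zmul (zmul h0 h1) h2) (Computable.const [0, 1])
  have r1 : Computable fun a =>
      (-(a0 a * a1 a + a0 a * a2 a + a1 a * a2 a)) :: ([] : List ℤ) :=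
    cons_comp (cineg (zadd (zadd (zmul h0 h1) (zmul h0 h2)) (zmul h1 h2))) (Computable.const [])
  have r2 : Computable fun a => (a0 a + a1 a + a2 a) :: ([] : List ℤ) :=
    cons_comp (zadd (zadd h0 h1) h2) (Computable.const [])
  have r3 : Computable fun _ : α => ([[(-1 : ℤ)]] : List (List ℤ)) := Computable.const _
  exact cons_comp r0 (cons_comp r1 (cons_comp r2 r3))

end

theorem pcq_cp : ComputablePred fun t : (List (List ℤ)) × QT => PCq t.1 t.2 := by
  have hL : Computable fun t : (List (List ℤ)) × QT => t.1 := Computable.fst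
  have hc : Computable fun t : (List (List ℤ)) × QT => t.2 := Computable.snd
  have c1 : Computable fun t : (List (List ℤ)) × QT => t.2.1 := Computable.fst.comp hc
  have a0 : Computable fun t : (List (List ℤ)) × QT => t.2.1.1 := Computable.fst.comp c1
  have c2 : Computable fun t : (List (List ℤ)) × QT => t.2.1.2 := Computable.snd.comp c1
  have a1 : Computable fun t : (List (List ℤ)) × QT => t.2.1.2.1 := Computable.fst.comp c2
  have a2 : Computable fun t : (List (List ℤ)) × QT => t.2.1.2.2 := Computable.snd.comp c2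
  have hc2 : Computable fun t : (List (List ℤ)) × QT => t.2.2 := Computable.snd.comp hc
  have hNM : Computable fun t : (List (List ℤ)) × QT => t.2.2.1 := Computable.fst.comp hc2
  have hN : Computable fun t : (List (List ℤ)) × QT => t.2.2.1.1 := Computable.fst.comp hNM
  have hM : Computable fun t : (List (List ℤ)) × QT => t.2.2.1.2 := Computable.snd.comp hNM
  have hc3 : Computable fun t : (List (List ℤ)) × QT => t.2.2.2 := Computable.snd.comp hc2
  have hll : Computable fun t : (List (List ℤ)) × QT => t.2.2.2.2 := Computable.snd.comp hc3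
  have gl : Computable fun t : (List (List (List ℤ))) × ℕ => t.1.getD t.2 [] :=
    (Primrec.list_getD (α := List (List ℤ)) []).to_comp
  have z : ∀ k : ℕ, Computable fun t : (List (List ℤ)) × QT => zi t.2 k := fun k =>
    zi_comp hc (Computable.const k)
  have l : ∀ k : ℕ, Computable fun t : (List (List ℤ)) × QT => li t.2 k := by
    intro k
    have p : Computable fun t : (List (List ℤ)) × QT => (t.2.2.2.2, k) :=
      Computable.pair hll (Computable.const k)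
    have q := gl.comp p
    exact q
  have hw : Computable fun t : (List (List ℤ)) × QT => weiW t.2.1.1 t.2.1.2.1 t.2.1.2.2 :=
    weiW_comp a0 a1 a2
  have E1 : ∀ k : ℕ, Computable fun t : (List (List ℤ)) × QT => v1 t.2 k := fun k =>
    hz_comp hM (l k) (z 0) (z 1) (z 2)
  have E2 : ∀ k : ℕ, Computable fun t : (List (List ℤ)) × QT => v2 t.2 k := fun k =>
    hz_comp hM (l k) (z 3) (z 4) (z 5)
  refine cp_and (cp_and (cp_not (RE.cp_eq a0 a1)) (cp_and (cp_not (RE.cp_eq a0 a2))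
    (cp_not (RE.cp_eq a1 a2)))) (cp_and (cp_and ?_ ?_) (cp_and (cp_and
      (cp_OnW a0 a1 a2 (z 0) (z 1) (z 2)) (cp_OnW a0 a1 a2 (z 3) (z 4) (z 5)))
      (cp_and (cp_and (RE.cp_le (dg_comp.comp hL) hN) (cp_and (RE.cp_le (dg_comp.comp (l 0)) hM)
        (cp_and (RE.cp_le (dg_comp.comp (l 1)) hM) (RE.cp_le (dg_comp.comp (l 2)) hM))))
        (cp_and ?_ (cp_and (cp_and (cp_not (RE.cp_eq (E1 2) (Computable.const 0)))
          (cp_not (RE.cp_eq (E2 2) (Computable.const 0)))) (cp_not (cp_and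
            (RE.cp_eq (zmul (E1 0) (E2 2)) (zmul (E2 0) (E1 2)))
            (RE.cp_eq (zmul (E1 1) (E2 2)) (zmul (E2 1) (E1 2))))))))))
  · exact cp_all_lt (p := fun (t : (List (List ℤ)) × QT) i => Pf t.2 i)
      (cp_Pf (hc.comp Computable.fst) Computable.snd) (Computable.const 5)
  · refine cp_all_lt (p := fun (t : (List (List ℤ)) × QT) i => ∀ j < 5, Pg t.2 i j) ?_
      (Computable.const 5)
    refine cp_all_lt (p := fun (t : ((List (List ℤ)) × QT) × ℕ) j => Pg t.1.2 t.2 j) ?_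
      (Computable.const 5)
    exact cp_Pg (hc.comp (Computable.fst.comp Computable.fst))
      (Computable.snd.comp Computable.fst) Computable.snd
  · exact CB.eq (hom_cb hN hL (toP_cb (l 0)) (toP_cb (l 1)) (toP_cb (l 2)))
      ((toP_cb hw).mul (toP_cb (l 3)))

theorem pcq_re : REPred fun L => ∃ c, PCq L c := RE.ex (p := PCq) pcq_cp.to_re

end Q44.DA
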