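import Pool.Agent.Q44.DA.Ck

/-! The solved curves -/

set_option autoImplicit false
set_option maxHeartbeats 400000

open scoped Classical

namespace Q44.DA

open WeierstrassCurve
open Pool.Agent.H437R2.Man.MW (crv crv_eqn crv_nonsing Pt pt_fg)
open Pool.Agent.W307.SE (Loc Sel LocR SelR)
open Pool.Agent.W307.RT (Sh)
open Pool.Agent.TH841.SH.D (Sha)
open Q44.JQ.X (cA cB cv poly_eq disc_ne)

/-- finitely many rational points, no element of order two in the Tate-Shafarevich group -/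
def Sol (W : WeierstrassCurve ℚ) : Prop :=
  Finite W.toAffine.Point ∧ ∀ x : Sha W, x + x = 0 → x = 0

theorem finrank_fin (G : Type) [AddCommGroup G] [Finite G] : Module.finrank ℤ G = 0 := by
  have : Module.Finite ℤ G := Module.Finite.of_finite
  rw [Module.finrank_eq_zero_iff_isTorsion]
  intro x
  refine ⟨⟨(Nat.card G : ℤ), mem_nonZeroDivisors_of_ne_zero (by exact_mod_cast Nat.card_pos.ne')⟩, ?_⟩
  show (Nat.card G : ℤ) • x = 0
  rw [natCast_zsmul]
  exact card_nsmul_eq_zero' 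

theorem fin_of_finrank {G : Type} [AddCommGroup G] (hfg : AddGroup.FG G)
    (h0 : Module.finrank ℤ G = 0) : Finite G := by
  have : Module.Finite ℤ G := Module.Finite.iff_addGroup_fg.mpr hfg
  exact Module.finite_of_fg_torsion _ (Module.finrank_eq_zero_iff_isTorsion.1 h0)

theorem cv_crv {a : Fin 3 → ℤ} (h : a 0 + a 1 + a 2 = 0) :
    cv a = crv (-(a 0 : ℚ)) (-(a 1 : ℚ)) (-(a 2 : ℚ)) := by
  have hq : (a 0 : ℚ) + a 1 + a 2 = 0 := by exact_mod_cast congrArg (Int.cast : ℤ → ℚ) h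
  apply WeierstrassCurve.ext
  · rfl
  · show (0 : ℚ) = -(a 0 : ℚ) + -(a 1 : ℚ) + -(a 2 : ℚ)
    linear_combination hq
  · rfl
  · show ((cA a : ℤ) : ℚ) = -(a 0 : ℚ) * -(a 1 : ℚ) + -(a 0 : ℚ) * -(a 2 : ℚ) + -(a 1 : ℚ) * -(a 2 : ℚ)
    unfold cA
    push_cast
    ring
  · show ((cB a : ℤ) : ℚ) = -(a 0 : ℚ) * -(a 1 : ℚ) * -(a 2 : ℚ)
    unfold cB
    push_cast
    ring

theorem neg_ne {a : Fin 3 → ℤ} (hi : Function.Injective a) {i j : Fin 3} (h : i ≠ j) :
    (-(a i : ℚ)) ≠ -(a j : ℚ) := fun hh => hi.ne h (by exact_mod_cast neg_injective hh)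

theorem cv_fg {a : Fin 3 → ℤ} (h : a 0 + a 1 + a 2 = 0) (hi : Function.Injective a) :
    AddGroup.FG (cv a).toAffine.Point := by
  rw [cv_crv h]
  exact pt_fg (neg_ne hi (by decide)) (neg_ne hi (by decide)) (neg_ne hi (by decide))

theorem selR_fin {a : Fin 3 → ℤ} (h : a 0 + a 1 + a 2 = 0) (hi : Function.Injective a) :
    (SelR (cA a) (cB a)).Finite := by
  have h1 := (Pool.Agent.TH639.SL.sel_tw (disc_ne h hi) (poly_eq h) one_ne_zero).1
  rwa [one_pow, one_pow, one_mul, one_mul] at h1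

/-- the order of the Selmer group -/
theorem selR_card {a : Fin 3 → ℤ} (h : a 0 + a 1 + a 2 = 0) (hi : Function.Injective a) :
    Finite {x : Sha (cv a) // x + x = 0} ∧
    2 ^ (Module.finrank ℤ (cv a).toAffine.Point + 2) * Nat.card {x : Sha (cv a) // x + x = 0} =
      (SelR (cA a) (cB a)).ncard := by
  obtain ⟨h3, h4⟩ := Pool.Agent.Z864.SX.SELH _ _ _ _ _ (disc_ne h hi) (poly_eq h) (selR_fin h hi)
  obtain ⟨h5, h6⟩ := Pool.Agent.Y214.SX.RKSHA _ _ _ _ _ (disc_ne h hi) (poly_eq h) h3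
  exact ⟨h5, h6.trans h4⟩

theorem selR_four {a : Fin 3 → ℤ} (h : a 0 + a 1 + a 2 = 0) (hi : Function.Injective a)
    (hs : Sol (cv a)) : (SelR (cA a) (cB a)).ncard = 4 := by
  obtain ⟨h1, h2⟩ := selR_card h hi
  obtain ⟨h3, h4⟩ := hs
  rw [← h2, finrank_fin]
  have h5 : Nat.card {x : Sha (cv a) // x + x = 0} = 1 := by
    rw [Nat.card_eq_one_iff_unique]
    exact ⟨⟨fun x y => Subtype.ext ((h4 x.1 x.2).trans (h4 y.1 y.2).symm)⟩, ⟨⟨0, add_zero 0⟩⟩⟩
  rw [h5]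
  norm_num

/-- the criterion with the number `r` -/
theorem sol_iff {a : Fin 3 → ℤ} (h : a 0 + a 1 + a 2 = 0) (hi : Function.Injective a) {r : ℕ}
    (hr : 2 ^ Module.finrank ℤ (cv a).toAffine.Point * Nat.card {x : Sha (cv a) // x + x = 0} =
      2 ^ r) : Sol (cv a) ↔ r = 0 := by
  constructor
  · rintro ⟨h3, h4⟩
    rw [finrank_fin] at hr
    have h5 : Nat.card {x : Sha (cv a) // x + x = 0} = 1 := by
      rw [Nat.card_eq_one_iff_unique]
      exact ⟨⟨fun x y => Subtype.ext ((h4 x.1 x.2).trans (h4 y.1 y.2).symm)⟩, ⟨⟨0, add_zero 0⟩⟩⟩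
    rw [h5, pow_zero, mul_one] at hr
    by_contra h0
    have := Nat.one_lt_two_pow h0
    omega
  · rintro rfl
    rw [pow_zero, mul_eq_one] at hr
    obtain ⟨h1, h2⟩ := hr
    have h3 : Module.finrank ℤ (cv a).toAffine.Point = 0 := by
      by_contra h0
      have := Nat.one_lt_two_pow h0
      omega
    refine ⟨fin_of_finrank (cv_fg h hi) h3, fun x hx => ?_⟩
    obtain ⟨⟨h4⟩, -⟩ := Nat.card_eq_one_iff_unique.1 h2
    exact congrArg (fun t : {x : Sha (cv a) // x + x = 0} => t.1) (h4 ⟨x, hx⟩ ⟨0, add_zero 0⟩)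

/-- squarefree parts of integers -/
theorem int_sqf (n : ℤ) : ∃ b : ℤ, Squarefree b ∧ (n ≠ 0 → ∃ t : ℚ, t ≠ 0 ∧ (n : ℚ) = b * t ^ 2) := by
  by_cases hn : n = 0
  · exact ⟨1, squarefree_one, fun h => absurd hn h⟩
  · obtain ⟨b, r, h1, h2, h3⟩ := rat_sqf (x := (n : ℚ)) (by exact_mod_cast hn)
    exact ⟨b, h1, fun _ => ⟨r, h2, h3⟩⟩

/-- the squarefree part -/
noncomputable def sf (n : ℤ) : ℤ := Classical.choose (int_sqf n)

theorem sf_sqf (n : ℤ) : Squarefree (sf n) := (Classical.choose_spec (int_sqf n)).1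

theorem sf_eq {n : ℤ} (hn : n ≠ 0) : ∃ t : ℚ, t ≠ 0 ∧ (n : ℚ) = sf n * t ^ 2 :=
  (Classical.choose_spec (int_sqf n)).2 hn

/-- the function of a pair -/
noncomputable def Tf (a : Fin 3 → ℤ) (t : ℤ × ℤ) (e : ℤ) : ℤ :=
  if e = a 0 then t.1 else if e = a 1 then t.2 else if e = a 2 then sf (t.1 * t.2) else 1

theorem locR {K : Type} [Field K] [CharZero K] {a : Fin 3 → ℤ} (h : a 0 + a 1 + a 2 = 0)
    (hi : Function.Injective a) {b d : ℤ} (hb : b ≠ 0) (hd : d ≠ 0)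
    (hl : Loc K (a 1 - a 0) (a 2 - a 0) b d) : LocR K (cA a) (cB a) (Tf a (b, d)) := by
  obtain ⟨x, y, hy, he, h1, h2⟩ := hl
  have hq : (a 0 : K) + a 1 + a 2 = 0 := by exact_mod_cast congrArg (Int.cast : ℤ → K) h
  have hpoly : y ^ 2 = (x + a 0) ^ 3 + ((cA a : ℤ) : K) * (x + a 0) + ((cB a : ℤ) : K) := by
    rw [he]
    unfold cA cB
    push_cast
    have h2 : (a 2 : K) = -a 0 - a 1 := by linear_combination hq
    rw [h2]
    ring
  refine ⟨x + a 0, y, hy, hpoly, fun e hroot => ?_⟩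
  have d01 : a 1 ≠ a 0 := hi.ne (by decide)
  have d02 : a 2 ≠ a 0 := hi.ne (by decide)
  have d12 : a 2 ≠ a 1 := hi.ne (by decide)
  have hroot' : (e - a 0) * (e - a 1) * (e - a 2) = 0 := by rw [← poly_eq h e]; exact hroot
  have he3 : e = a 0 ∨ e = a 1 ∨ e = a 2 := by
    rcases mul_eq_zero.1 hroot' with h3 | h3
    · rcases mul_eq_zero.1 h3 with h4 | h4
      · exact Or.inl (sub_eq_zero.1 h4)
      · exact Or.inr (Or.inl (sub_eq_zero.1 h4))
    · exact Or.inr (Or.inr (sub_eq_zero.1 h3))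
  unfold Tf
  rcases he3 with rfl | rfl | rfl
  · rw [if_pos rfl]
    have e1 : (x + a 0 - ((a 0 : ℤ) : K)) = x := by ring
    rw [e1]
    exact h1
  · rw [if_neg d01, if_pos rfl]
    have e1 : (x + a 0 - ((a 1 : ℤ) : K)) = x - ((a 1 - a 0 : ℤ) : K) := by push_cast; ring
    rw [e1]
    exact h2
  · rw [if_neg d02, if_neg d12, if_pos rfl]
    obtain ⟨r1, hr1⟩ := h1
    obtain ⟨r2, hr2⟩ := h2
    obtain ⟨t, ht, hbd⟩ := sf_eq (mul_ne_zero hb hd)
    have hbdK : (b : K) * d = (sf (b * d) : K) * ((t : ℚ) : K) ^ 2 := by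
      have := congrArg (Rat.cast : ℚ → K) hbd
      push_cast at this
      exact this
    have htK : ((t : ℚ) : K) ≠ 0 := by exact_mod_cast ht
    have hbK : (b : K) ≠ 0 := by exact_mod_cast hb
    have hdK : (d : K) ≠ 0 := by exact_mod_cast hd
    have e1 : (x + a 0 - ((a 2 : ℤ) : K)) = x - ((a 2 - a 0 : ℤ) : K) := by push_cast; ring
    rw [e1]
    have hp : x * (x - ((a 1 - a 0 : ℤ) : K)) * (x - ((a 2 - a 0 : ℤ) : K)) ≠ 0 := by
      rw [← he]
      exact pow_ne_zero 2 hy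
    have n1 : x ≠ 0 := fun h => hp (by rw [h]; ring)
    have n2 : x - ((a 1 - a 0 : ℤ) : K) ≠ 0 := fun h => hp (by rw [h]; ring)
    have m1 : r1 ≠ 0 := by
      rintro rfl
      rw [mul_zero] at hr1
      exact mul_ne_zero n1 hbK hr1
    have m2 : r2 ≠ 0 := by
      rintro rfl
      rw [mul_zero] at hr2
      exact mul_ne_zero n2 hdK hr2
    refine ⟨y * b * d / (r1 * r2 * t), ?_⟩
    have h5 : (x - ((a 2 - a 0 : ℤ) : K)) * (r1 * r2) ^ 2 = y ^ 2 * (b * d) := by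
      rw [he]
      linear_combination -(x - ((a 2 - a 0 : ℤ) : K)) * (r2 * r2) * hr1 -
        (x - ((a 2 - a 0 : ℤ) : K)) * (x * b) * hr2
    rw [div_mul_div_comm, eq_div_iff (by
      exact mul_ne_zero (mul_ne_zero (mul_ne_zero m1 m2) htK) (mul_ne_zero (mul_ne_zero m1 m2) htK))]
    linear_combination (sf (b * d) : K) * ((t : ℚ) : K) ^ 2 * h5 - y ^ 2 * (b * d) * hbdK

theorem tf_inj {a : Fin 3 → ℤ} (hi : Function.Injective a) : Function.Injective (Tf a) := by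
  rintro ⟨b, d⟩ ⟨b', d'⟩ hh
  have d01 : a 1 ≠ a 0 := hi.ne (by decide)
  have h1 := congrFun hh (a 0)
  have h2 := congrFun hh (a 1)
  unfold Tf at h1 h2
  rw [if_pos rfl, if_pos rfl] at h1
  rw [if_neg d01, if_neg d01, if_pos rfl, if_pos rfl] at h2
  exact Prod.ext h1 h2

theorem sel_le {a : Fin 3 → ℤ} (h : a 0 + a 1 + a 2 = 0) (hi : Function.Injective a) :
    (Sel (a 1 - a 0) (a 2 - a 0)).Finite ∧
      (Sel (a 1 - a 0) (a 2 - a 0)).ncard ≤ (SelR (cA a) (cB a)).ncard := by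
  have hm : ∀ t ∈ Sel (a 1 - a 0) (a 2 - a 0), Tf a t ∈ SelR (cA a) (cB a) := by
    rintro ⟨b, d⟩ ⟨hb, hd, hR, hp⟩
    simp only at hb hd hR hp
    refine ⟨fun e => ?_, fun e he => ?_, locR h hi hb.ne_zero hd.ne_zero hR, fun p _ =>
      locR h hi hb.ne_zero hd.ne_zero (hp p)⟩
    · unfold Tf
      split_ifs
      · exact hb
      · exact hd
      · exact sf_sqf _
      · exact squarefree_one
    · rw [poly_eq h e] at he
      unfold Tf
      rw [if_neg, if_neg, if_neg]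
      · rintro rfl
        exact he (by ring)
      · rintro rfl
        exact he (by ring)
      · rintro rfl
        exact he (by ring)
  have hf := selR_fin h hi
  refine ⟨Set.Finite.of_injOn (fun t ht => hm t ht) (tf_inj hi).injOn hf,
    Set.ncard_le_ncard_of_injOn (Tf a) hm (tf_inj hi).injOn hf⟩

/-- **The solved curves are recognized.** -/
theorem sol_ck {a : Fin 3 → ℤ} (h : a 0 + a 1 + a 2 = 0) (hi : Function.Injective a)
    (hs : Sol (cv a)) : ∃ (c : P4) (m : ℕ), 0 < m ∧ Ck (a 1 - a 0) (a 2 - a 0) c m := by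
  obtain ⟨h1, h2⟩ := sel_le h hi
  rw [selR_four h hi hs] at h2
  exact ck_complete (sub_ne_zero.2 (hi.ne (by decide))) (sub_ne_zero.2 (hi.ne (by decide)))
    (fun hh => hi.ne (by decide : (1 : Fin 3) ≠ 2) (sub_left_injective hh)) h1 h2

end Q44.DA
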